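import Pool.Agent.K4H24.IW.Main
import Pool.Agent.Q60.MU.Fields

/-!
# The layers of the cyclotomic `ℤ_p`-extension of `ℚ`
-/

set_option autoImplicit false

namespace Pool.Agent.K4H24.IW

open Subgroup Module IntermediateField Pool.Agent.Q60.MU
open scoped Pointwise commutatorElement

/-- `R m` is the `m`-th layer of the cyclotomic `ℤ_p`-extension of `ℚ`, for an odd prime `p`: the
subfield of degree `p ^ m` of the field generated by the `p ^ (m + 1)`-th roots of unity. -/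
def IsCycTower (p : ℕ) (R : ℕ → IntermediateField ℚ Qb) : Prop :=
  ∀ m, finrank ℚ (R m) = p ^ m ∧ R m ≤ adjoin ℚ {ζ : Qb | ζ ^ p ^ (m + 1) = 1}

theorem integral_of_pow_eq_one {x : Qb} {n : ℕ} (hn : n ≠ 0) (h : x ^ n = 1) : IsIntegral ℤ x := by
  refine IsIntegral.of_pow (Nat.pos_of_ne_zero hn) ?_
  rw [h]
  exact isIntegral_one

theorem pow_sub_one_mem (A : ValuationSubring Qb) {η : Qb} (hi : IsIntegral ℤ η)
    (h : η - 1 ∈ A.nonunits) (j : ℕ) : η ^ j - 1 ∈ A.nonunits := by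
  rw [← mul_geom_sum η j]
  refine mul_nonunits h (integral_mem A ?_)
  exact IsIntegral.sum _ fun i _ => hi.pow i

theorem p_mem_nonunits (A : ValuationSubring Qb) {p : ℕ} (hp : p.Prime) (k : ℕ) : ∀ η : Qb,
    η ^ p ^ k = 1 → η ≠ 1 → η - 1 ∈ A.nonunits → (p : Qb) ∈ A.nonunits := by
  induction k with
  | zero =>
    intro η h1 h2
    rw [pow_zero, pow_one] at h1
    exact absurd h1 h2
  | succ k ih =>
    intro η h1 h2 h3
    have hi : IsIntegral ℤ η := integral_of_pow_eq_one (pow_ne_zero _ hp.ne_zero) h1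
    by_cases h4 : η ^ p = 1
    · have h5 : ∑ j ∈ Finset.range p, η ^ j = 0 := by
        have h6 := mul_geom_sum η p
        rw [h4, sub_self] at h6
        exact (mul_eq_zero.1 h6).resolve_left (sub_ne_zero.2 h2)
      have h6 : (p : Qb) = ∑ j ∈ Finset.range p, -(η ^ j - 1) := by
        rw [Finset.sum_neg_distrib, Finset.sum_sub_distrib, h5]
        simp
      rw [h6]
      exact sum_mem fun j _ => neg_mem (pow_sub_one_mem A hi h3 j)
    · refine ih (η ^ p) ?_ h4 (pow_sub_one_mem A hi h3 p)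
      rw [← pow_mul, ← pow_succ']
      exact h1

/-- inertia groups act trivially on the `p`-power roots of unity at the primes which do not divide
`p` -/
theorem inertia_root (A : ValuationSubring Qb) {p : ℕ} (hp : p.Prime) {k : ℕ} {ζ : Qb}
    (hζ : ζ ^ p ^ k = 1) {σ : Gal(Qb/ℚ)} (hσ : σ ∈ inertia A) (h : σ ζ ≠ ζ) :
    (p : Qb) ∈ A.nonunits := by
  have hk : p ^ k ≠ 0 := pow_ne_zero _ hp.ne_zero
  have hζ0 : ζ ≠ 0 := by
    rintro rfl
    rw [zero_pow hk] at hζ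
    exact zero_ne_one hζ
  have hζi : ζ⁻¹ ^ p ^ k = 1 := by rw [inv_pow, hζ, inv_one]
  refine p_mem_nonunits A hp k (σ ζ * ζ⁻¹) ?_ ?_ ?_
  · rw [mul_pow, ← map_pow, hζ, map_one, hζi, one_mul]
  · intro h1
    apply h
    rw [mul_inv_eq_one₀ hζ0] at h1
    exact h1
  · have h1 : σ ζ * ζ⁻¹ - 1 = (σ ζ - ζ) * ζ⁻¹ := by
      rw [sub_mul, mul_inv_cancel₀ hζ0]
    rw [h1]
    exact mul_nonunits (hσ.2 ζ (integral_mem A (integral_of_pow_eq_one hk hζ)))
      (integral_mem A (integral_of_pow_eq_one hk hζi))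

/-- the cyclotomic character -/
theorem exists_char {p : ℕ} [hp : Fact p.Prime] (hp2 : p ≠ 2) {k : ℕ} {E : IntermediateField ℚ Qb}
    (hE : E ≤ adjoin ℚ {ζ : Qb | ζ ^ p ^ k = 1}) :
    ∃ (X : Type) (_ : CommGroup X) (_ : IsCyclic X) (χ : Gal(Qb/ℚ) →* X),
      (∀ σ, χ σ = 1 → σ ∈ E.fixingSubgroup) ∧
      ∀ A, ∀ σ ∈ inertia A, χ σ ≠ 1 → (p : Qb) ∈ A.nonunits := by
  have hk : p ^ k ≠ 0 := pow_ne_zero _ hp.1.ne_zero
  have : NeZero (p ^ k) := ⟨hk⟩
  have hcl : IsAlgClosed Qb := AlgebraicClosure.isAlgClosed ℚ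
  have : NeZero ((p ^ k : ℕ) : Qb) := ⟨by exact_mod_cast hk⟩
  obtain ⟨ζ, hζ⟩ := HasEnoughRootsOfUnity.exists_primitiveRoot Qb (p ^ k)
  refine ⟨(ZMod (p ^ k))ˣ, inferInstance, ZMod.isCyclic_units_of_prime_pow p hp.1 hp2 k,
    hζ.autToPow ℚ, ?_, ?_⟩
  · intro σ hσ
    have h1 : σ ζ = ζ := by
      rw [← hζ.autToPow_spec ℚ σ, hσ]
      by_cases h : p ^ k = 1
      · have h2 : ζ = 1 := by
          have := hζ.pow_eq_one
          rwa [h, pow_one] at this
        rw [h2, one_pow]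
      · have : Fact (1 < p ^ k) := ⟨by omega⟩
        rw [Units.val_one, ZMod.val_one, pow_one]
    have h2 : adjoin ℚ {ζ : Qb | ζ ^ p ^ k = 1} ≤ fixedField (zpowers σ) := by
      rw [adjoin_le_iff]
      intro x hx
      obtain ⟨i, -, rfl⟩ := hζ.eq_pow_of_pow_eq_one hx
      rw [SetLike.mem_coe, mem_fixedField_iff]
      intro τ hτ
      have h3 : zpowers σ ≤ MulAction.stabilizer Gal(Qb/ℚ) (ζ ^ i) := by
        rw [zpowers_le, MulAction.mem_stabilizer_iff]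
        show σ (ζ ^ i) = ζ ^ i
        rw [map_pow, h1]
      exact MulAction.mem_stabilizer_iff.1 (h3 hτ)
    rw [IntermediateField.mem_fixingSubgroup_iff]
    intro x hx
    exact (mem_fixedField_iff _ _).1 (h2 (hE hx)) σ (mem_zpowers σ)
  · intro A σ hσ hχ
    refine inertia_root A hp.1 hζ.pow_eq_one hσ fun h => hχ ?_
    have h1 := hζ.autToPow_spec ℚ σ
    rw [h] at h1
    apply Units.ext
    by_cases h2 : p ^ k = 1
    · have h3 : Subsingleton (ZMod (p ^ k)) := by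
        rw [h2]
        infer_instance
      exact Subsingleton.elim _ _
    · have h3 := hζ.pow_inj (ZMod.val_lt ((hζ.autToPow ℚ σ : (ZMod (p ^ k))ˣ) : ZMod (p ^ k)))
        (by omega : 1 < p ^ k) (h1.trans (pow_one ζ).symm)
      have h4 := ZMod.natCast_zmod_val ((hζ.autToPow ℚ σ : (ZMod (p ^ k))ˣ) : ZMod (p ^ k))
      rw [h3, Nat.cast_one] at h4
      exact h4.symm

/-- the Galois group of the layers -/
theorem cyc_facts {p : ℕ} [hp : Fact p.Prime] (hp2 : p ≠ 2) {R : ℕ → IntermediateField ℚ Qb}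
    (hR : IsCycTower p R) (m : ℕ) : FiniteDimensional ℚ (R m) ∧
      (R m).fixingSubgroup.Normal ∧ (R m).fixingSubgroup.index = p ^ m ∧
      (∀ H : Subgroup Gal(Qb/ℚ), ∃ γ ∈ H, ∀ h ∈ H, ∃ i : ℤ, γ ^ i * h ∈ (R m).fixingSubgroup) ∧
      ∀ A, ∀ σ ∈ inertia A, σ ∉ (R m).fixingSubgroup → (p : Qb) ∈ A.nonunits := by
  obtain ⟨h1, h2⟩ := hR m
  obtain ⟨X, _, _, χ, hχ, hχA⟩ := exists_char hp2 h2
  have hfd : FiniteDimensional ℚ (R m) := by
    apply FiniteDimensional.of_finrank_pos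
    rw [h1]
    exact pow_pos hp.1.pos m
  refine ⟨hfd, ⟨fun x hx g => ?_⟩, ?_, fun H => ?_, fun A σ hσ h => ?_⟩
  · have h3 : g * x * g⁻¹ = ⁅g, x⁆ * x := by
      rw [commutatorElement_def]
      group
    rw [h3]
    refine mul_mem (hχ _ ?_) hx
    rw [map_commutatorElement]
    exact commutatorElement_eq_one_iff_mul_comm.2 (mul_comm _ _)
  · rw [← finrank_eq_fixingSubgroup_index, h1]
  · obtain ⟨⟨_, γ, hγ, rfl⟩, hg⟩ := IsCyclic.exists_generator (α := H.map χ)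
    refine ⟨γ, hγ, fun h hh => ?_⟩
    obtain ⟨i, hi⟩ := mem_zpowers_iff.1 (hg ⟨χ h, h, hh, rfl⟩)
    refine ⟨-i, hχ _ ?_⟩
    have h3 : χ γ ^ i = χ h := congrArg Subtype.val hi
    rw [map_mul, map_zpow, zpow_neg, h3, inv_mul_cancel]
  · exact hχA A σ hσ fun h3 => h (hχ _ h3)

end Pool.Agent.K4H24.IW
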