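import Pool.Agent.K4H24.IW.Tr
import Pool.Agent.Q60.MU.Reduction

/-!
# Auxiliary facts
-/

set_option autoImplicit false

namespace Pool.Agent.K4H24.IW

open Subgroup Module Pool.Agent.Q60.MU
open scoped commutatorElement

variable {𝔾 : Type} [Group 𝔾]

/-- a normal subgroup of `p`-power index and a subgroup of index prime to `p` generate -/
theorem exists_mul {p : ℕ} [Fact p.Prime] {K H T : Subgroup 𝔾}
    (hp : ¬ p ∣ K.relIndex H) (hTn : ∀ h ∈ H, ∀ x ∈ T, h * x * h⁻¹ ∈ T) {m : ℕ}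
    (hT : T.relIndex H = p ^ m) : ∀ h ∈ H, ∃ t ∈ T, t ∈ H ∧ ∃ k ∈ K, h = t * k := by
  intro h hh
  have hN : (T.subgroupOf H).Normal := ⟨fun x hx g => hTn g g.2 x hx⟩
  have h1 : (T.subgroupOf H ⊔ K.subgroupOf H).index ∣ p ^ m := by
    rw [← hT]
    exact index_dvd_of_le le_sup_left
  have h2 : (T.subgroupOf H ⊔ K.subgroupOf H).index ∣ K.relIndex H := index_dvd_of_le le_sup_right
  have h3 : Nat.Coprime (p ^ m) (K.relIndex H) :=
    Nat.Coprime.pow_left m (((Fact.out : p.Prime).coprime_iff_not_dvd).2 hp)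
  have h4 : T.subgroupOf H ⊔ K.subgroupOf H = ⊤ := by
    rw [← index_eq_one]
    exact Nat.eq_one_of_dvd_coprimes h3 h1 h2
  have h5 : (⟨h, hh⟩ : H) ∈ T.subgroupOf H ⊔ K.subgroupOf H := by
    rw [h4]
    exact mem_top _
  obtain ⟨t, ht, k, hk, htk⟩ := mem_sup_of_normal_left.1 h5
  exact ⟨t, ht, t.2, k, hk, congrArg Subtype.val htk.symm⟩

/-- representatives for `K ⊓ T` in `T` are representatives for `K` in `H` -/
theorem Reps.lift {K H T : Subgroup 𝔾} (hTH : T ≤ H)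
    (hKT : ∀ h ∈ H, ∃ t ∈ T, t ∈ H ∧ ∃ k ∈ K, h = t * k) {ι : Type} {r : ι → 𝔾}
    (hr : Reps (K ⊓ T) T r) : Reps K H r := by
  refine ⟨fun i => hTH (hr.mem i), fun h hh => ?_, fun i j hij => ?_⟩
  · obtain ⟨t, ht, -, k, hk, rfl⟩ := hKT h hh
    obtain ⟨i, hi⟩ := hr.ex t ht
    refine ⟨i, ?_⟩
    rw [← mul_assoc]
    exact K.mul_mem hi.1 hk
  · exact hr.inj i j ⟨hij, T.mul_mem (T.inv_mem (hr.mem i)) (hr.mem j)⟩

/-- fixed points of actions through `p`-groups -/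
theorem exists_fixed_point {p : ℕ} [Fact p.Prime] {D Z : Type} [Group D] [MulAction D Z] [Finite Z]
    (hD : ∀ g : D, ∃ j : ℕ, ∀ z : Z, g ^ p ^ j • z = z) (hZ : p ∣ Nat.card Z) {a : Z}
    (ha : ∀ g : D, g • a = a) : ∃ b : Z, b ≠ a ∧ ∀ g : D, g • b = b := by
  classical
  let f : D →* Equiv.Perm Z := MulAction.toPermHom D Z
  have hf : ∀ g z, f g z = g • z := fun g z => rfl
  have hG : IsPGroup p f.range := by
    rintro ⟨_, g, rfl⟩
    obtain ⟨j, hj⟩ := hD g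
    refine ⟨j, Subtype.ext ?_⟩
    show (f g) ^ p ^ j = 1
    rw [← map_pow]
    ext z
    rw [hf, hj]
    rfl
  have ha' : a ∈ MulAction.fixedPoints f.range Z := by
    rintro ⟨_, g, rfl⟩
    exact ha g
  obtain ⟨b, hb, hba⟩ := hG.exists_fixed_point_of_prime_dvd_card_of_fixed_point Z hZ ha'
  exact ⟨b, hba.symm, fun g => hb ⟨f g, g, rfl⟩⟩

/-- an invariant functional which vanishes on a stable proper subspace -/
theorem exists_functional {p : ℕ} [Fact p.Prime] {D V : Type} [Group D] [AddCommGroup V]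
    [Module (ZMod p) V] [Module.Finite (ZMod p) V] (ρ : Representation (ZMod p) D V)
    (hD : ∀ g : D, ∃ j : ℕ, ∀ v : V, ρ (g ^ p ^ j) v = v) (U : Submodule (ZMod p) V)
    (hU : ∀ g, ∀ v ∈ U, ρ g v ∈ U) (hne : U ≠ ⊤) :
    ∃ φ : V →ₗ[ZMod p] ZMod p, φ ≠ 0 ∧ (∀ v ∈ U, φ v = 0) ∧ ∀ g v, φ (ρ g v) = φ v := by
  classical
  let Z : Submodule (ZMod p) (Module.Dual (ZMod p) V) := U.dualAnnihilator
  have hZ : ∀ φ : Module.Dual (ZMod p) V, φ ∈ Z ↔ ∀ v ∈ U, φ v = 0 := fun φ =>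
    Submodule.mem_dualAnnihilator φ
  have hfinV : Finite V := Module.finite_of_finite (ZMod p)
  have hfin : Finite (Module.Dual (ZMod p) V) := Module.finite_of_finite (ZMod p)
  let act : MulAction D Z :=
    { smul := fun g φ => ⟨φ.1.comp (ρ g⁻¹), (hZ _).2 fun v hv => (hZ φ.1).1 φ.2 _ (hU _ v hv)⟩
      one_smul := fun φ => Subtype.ext (by
        show φ.1.comp (ρ 1⁻¹) = φ.1
        rw [inv_one, map_one]
        rfl)
      mul_smul := fun g h φ => Subtype.ext (by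
        show φ.1.comp (ρ (g * h)⁻¹) = (φ.1.comp (ρ h⁻¹)).comp (ρ g⁻¹)
        rw [mul_inv_rev, map_mul]
        rfl) }
  have hact : ∀ (g : D) (φ : Z) (v : V), (g • φ).1 v = φ.1 (ρ g⁻¹ v) := fun g φ v => rfl
  have hZne : Z ≠ ⊥ := by
    intro h
    apply hne
    have h1 : U.dualAnnihilator = ⊥ := h
    have h2 := Subspace.dualAnnihilator_dualCoannihilator_eq (W := U)
    rw [h1, Submodule.dualCoannihilator_bot] at h2
    exact h2.symm
  have hnt : Nontrivial Z := (Submodule.nontrivial_iff_ne_bot).2 hZne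
  have hcard : p ∣ Nat.card Z := by
    have h1 := Module.natCard_eq_pow_finrank (K := ZMod p) (V := Z)
    rw [Nat.card_zmod] at h1
    rw [h1]
    exact dvd_pow_self p (finrank_pos (R := ZMod p) (M := Z)).ne'
  obtain ⟨b, hb0, hb⟩ := exists_fixed_point (p := p) (D := D) (Z := Z) (a := 0) (fun g => by
    obtain ⟨j, hj⟩ := hD g⁻¹
    refine ⟨j, fun φ => Subtype.ext (LinearMap.ext fun v => ?_)⟩
    rw [hact, ← inv_pow, hj]) hcard (fun g => Subtype.ext (LinearMap.ext fun v => by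
      rw [hact]
      rfl))
  refine ⟨b.1, fun h => hb0 (Subtype.ext h), (hZ b.1).1 b.2, fun g v => ?_⟩
  have h1 := congrArg (fun φ : Z => φ.1 (ρ g v)) (hb g)
  simp only [hact] at h1
  rw [← h1, ← Module.End.mul_apply, ← map_mul, inv_mul_cancel, map_one]
  rfl

/-- the quotient by a subgroup containing the commutators -/
theorem exists_quot {K W : Subgroup 𝔾} (hWn : ∀ k ∈ K, ∀ x ∈ W, k * x * k⁻¹ ∈ W)
    (hc : ∀ a ∈ K, ∀ b ∈ K, ⁅a, b⁆ ∈ W) :
    ∃ (A : Type) (_ : CommGroup A) (ψ : K →* A), (∀ x : K, ψ x = 1 ↔ (x : 𝔾) ∈ W) ∧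
      ∀ (B : Type) [CommGroup B] (g : K →* B), (∀ x : K, (x : 𝔾) ∈ W → g x = 1) →
        ∃ f : A →* B, ∀ k, f (ψ k) = g k := by
  classical
  have hN : (W.subgroupOf K).Normal := ⟨fun q hq l => hWn l l.2 q hq⟩
  let cg : CommGroup (K ⧸ W.subgroupOf K) :=
    { (inferInstance : Group (K ⧸ W.subgroupOf K)) with
      mul_comm := by
        intro a b
        obtain ⟨x, rfl⟩ := QuotientGroup.mk_surjective a
        obtain ⟨y, rfl⟩ := QuotientGroup.mk_surjective b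
        refine QuotientGroup.eq.2 ?_
        have h1 : (((x * y)⁻¹ * (y * x) : K) : 𝔾) = ⁅((y⁻¹ : K) : 𝔾), ((x⁻¹ : K) : 𝔾)⁆ := by
          rw [commutatorElement_def]
          push_cast
          group
        show (((x * y)⁻¹ * (y * x) : K) : 𝔾) ∈ W
        rw [h1]
        exact hc _ (y⁻¹).2 _ (x⁻¹).2 }
  refine ⟨K ⧸ W.subgroupOf K, cg, QuotientGroup.mk' _, fun x => ?_, fun B _ g hg => ?_⟩
  · exact QuotientGroup.eq_one_iff x
  · exact ⟨QuotientGroup.lift _ g (fun x hx => hg x hx), fun k => rfl⟩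

end Pool.Agent.K4H24.IW
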