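import Pool.Agent.K4H24.IW.Fld
import Pool.Agent.Y219.PC.CHD

/-!
# Positive proportions of primes
-/

set_option autoImplicit false

namespace Pool.Agent.K4H24.IW

open Subgroup Module IntermediateField Pool.Agent.Q60.MU Finset Filter Topology NumberField
open Pool.Agent.W401.Cheb Pool.Agent.Y219.PC Pool.Agent.Y157.PS
open scoped Pointwise commutatorElement

/-- Embeddings of `F` which agree on `M` differ by a power of `σ₀`: the number of the orbits of
`σ₀` on the embeddings of `F` is equal to the number of the orbits on the embeddings of `M`. -/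
def SameOrbits (σ₀ : Gal(Qb/ℚ)) (M F : IntermediateField ℚ Qb) : Prop :=
  ∀ g : Gal(Qb/ℚ), ∀ σ ∈ M.fixingSubgroup, ∃ i : ℤ, ∀ x ∈ F, (σ₀ ^ i) (g x) = g (σ x)

/-- the valuation rings above `p` are conjugate -/
theorem exists_smul_eq {p : ℕ} (hp : p.Prime) (A B : ValuationSubring Qb)
    (hA : (p : Qb) ∈ A.nonunits) (hB : (p : Qb) ∈ B.nonunits) : ∃ g : Gal(Qb/ℚ), A = g • B := by
  have hP0 : Ideal.span {(p : ℤ)} ≠ ⊥ := by
    rw [Ne, Ideal.span_singleton_eq_bot]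
    exact_mod_cast hp.ne_zero
  have hPp : (Ideal.span {(p : ℤ)}).IsPrime := by
    rw [Ideal.span_singleton_prime (by exact_mod_cast hp.ne_zero)]
    exact Nat.prime_iff_prime_int.1 hp
  have key : ∀ C : ValuationSubring Qb, (p : Qb) ∈ C.nonunits →
      (∀ x : ℤ, algebraMap ℤ ℚ x ∈ C.comap (algebraMap ℚ Qb)) ∧
      ∀ x : ℤ, algebraMap ℤ ℚ x ∈ (C.comap (algebraMap ℚ Qb)).nonunits ↔
        x ∈ Ideal.span {(p : ℤ)} := by
    intro C hC
    have hcast : ∀ x : ℤ, algebraMap ℚ Qb (algebraMap ℤ ℚ x) = (x : Qb) := fun x => by simp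
    have hint : ∀ x : ℤ, (x : Qb) ∈ C := fun x => integral_mem C (isIntegral_algebraMap (R := ℤ) (A := Qb) (x := x))
    refine ⟨fun x => ?_, fun x => ?_⟩
    · rw [ValuationSubring.mem_comap, hcast]
      exact hint x
    · rw [non_comap, hcast, Ideal.mem_span_singleton]
      constructor
      · intro hx
        by_contra hpx
        have h1 : IsCoprime (p : ℤ) x :=
          (Prime.coprime_iff_not_dvd (Nat.prime_iff_prime_int.1 hp)).2 hpx
        obtain ⟨u, v, huv⟩ := h1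
        have h2 : (1 : Qb) = (p : Qb) * (u : Qb) + (x : Qb) * (v : Qb) := by
          have h3 := congrArg (fun z : ℤ => (z : Qb)) huv
          simp only [Int.cast_add, Int.cast_mul, Int.cast_one, Int.cast_natCast] at h3
          rw [← h3]
          ring
        have h4 : (1 : Qb) ∈ C.nonunits := by
          rw [h2]
          exact add_mem (mul_nonunits hC (hint u)) (mul_nonunits hx (hint v))
        rw [ValuationSubring.mem_nonunits_iff, map_one] at h4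
        exact lt_irrefl _ h4
      · rintro ⟨y, rfl⟩
        rw [Int.cast_mul, Int.cast_natCast]
        exact mul_nonunits hC (hint y)
  obtain ⟨a1, a2⟩ := key A hA
  obtain ⟨b1, b2⟩ := key B hB
  have h1 := Pool.Agent.Y219.PC.unique (O := ℤ) (L := ℚ) (Ideal.span {(p : ℤ)}) hP0 _ _ b1 a1 b2 a2
  obtain ⟨γ, hγ⟩ := Pool.Agent.Y536.PS.conj ℚ Qb B A h1
  refine ⟨γ⁻¹, ?_⟩
  ext z
  rw [ValuationSubring.mem_inv_pointwise_smul_iff]
  exact hγ z

theorem oneAbove_of_frob {p : ℕ} (hp : p.Prime) {M F N : IntermediateField ℚ Qb} (hFN : F ≤ N)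
    (hN : ∀ g : Gal(Qb/ℚ), ∀ x ∈ N, g x ∈ N) {σ₀ : Gal(Qb/ℚ)} (hor : SameOrbits σ₀ M F)
    {A₀ : ValuationSubring Qb} (hA₀ : (p : Qb) ∈ A₀.nonunits) {φ : Gal(Qb/ℚ)} (hφ : φ • A₀ = A₀)
    (hφσ : ∀ z ∈ N, φ z = σ₀ z) (A : ValuationSubring Qb) (hA : (p : Qb) ∈ A.nonunits) :
    OneAbove M F A := by
  obtain ⟨g, rfl⟩ := exists_smul_eq hp A A₀ hA hA₀
  intro σ hσ
  have hpow : ∀ i : ℤ, ∀ z ∈ N, (φ ^ i) z = (σ₀ ^ i) z := by
    have hinv : ∀ z ∈ N, φ⁻¹ z = σ₀⁻¹ z := by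
      intro z hz
      have h1 := hφσ (σ₀⁻¹ z) (hN _ z hz)
      rw [← AlgEquiv.mul_apply, ← AlgEquiv.mul_apply, mul_inv_cancel, AlgEquiv.one_apply] at h1
      have h2 := congrArg (fun y => φ⁻¹ y) h1
      simp only [← AlgEquiv.mul_apply] at h2
      rw [← mul_assoc, inv_mul_cancel, one_mul] at h2
      exact h2.symm
    have hnat : ∀ i : ℕ, ∀ z ∈ N, (φ ^ i) z = (σ₀ ^ i) z := by
      intro i
      induction i with
      | zero =>
        intro z hz
        rw [pow_zero, pow_zero]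
      | succ i ih =>
        intro z hz
        rw [pow_succ, pow_succ, AlgEquiv.mul_apply, AlgEquiv.mul_apply, hφσ z hz,
          ih _ (hN _ z hz)]
    have hnat' : ∀ i : ℕ, ∀ z ∈ N, (φ⁻¹ ^ i) z = (σ₀⁻¹ ^ i) z := by
      intro i
      induction i with
      | zero =>
        intro z hz
        rw [pow_zero, pow_zero]
      | succ i ih =>
        intro z hz
        rw [pow_succ, pow_succ, AlgEquiv.mul_apply, AlgEquiv.mul_apply, hinv z hz,
          ih _ (hN _ z hz)]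
    intro i z hz
    obtain ⟨n, rfl | rfl⟩ := i.eq_nat_or_neg
    · rw [zpow_natCast, zpow_natCast]
      exact hnat n z hz
    · rw [zpow_neg, zpow_neg, zpow_natCast, zpow_natCast, ← inv_pow, ← inv_pow]
      exact hnat' n z hz
  obtain ⟨i, hi⟩ := hor g⁻¹ σ⁻¹ (inv_mem hσ)
  refine ⟨σ * g * φ ^ i * g⁻¹, ?_, ?_⟩
  · refine (IntermediateField.mem_fixingSubgroup_iff _ _).2 fun x hx => ?_
    have h1 : (φ ^ i) (g⁻¹ x) = g⁻¹ (σ⁻¹ x) := by
      rw [hpow i _ (hN _ x (hFN hx)), hi x hx]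
    have h2 : (σ * g * φ ^ i * g⁻¹) x = σ (g ((φ ^ i) (g⁻¹ x))) := rfl
    rw [h2, h1]
    have h3 : σ (g (g⁻¹ (σ⁻¹ x))) = (σ * (g * g⁻¹) * σ⁻¹) x := rfl
    rw [h3, mul_inv_cancel, mul_one, mul_inv_cancel, AlgEquiv.one_apply]
  · have h1 : ∀ j : ℤ, φ ^ j • A₀ = A₀ := by
      intro j
      have h2 : φ ∈ MulAction.stabilizer Gal(Qb/ℚ) A₀ := hφ
      exact zpow_mem h2 j
    rw [mul_smul, mul_smul, mul_smul, inv_smul_smul, h1, ← mul_smul]

open Classical in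
/-- **Chebotarev's theorem** with a positive lower density -/
theorem cheb_lower (L : Type) [Field L] [NumberField L] [IsGalois ℚ L] (g : Gal(L/ℚ))
    (S : Finset ℕ) : ∃ c : ℝ, 0 < c ∧ ∃ N₀ : ℕ, ∀ N, N₀ ≤ N → c * (Nat.primeCounting N : ℝ) ≤
      (((range (N + 1)).filter fun k => k.Prime ∧ k ∉ S ∧ xp L g k ≠ 0).card : ℝ) := by
  obtain ⟨D, hD, htor⟩ := torsor L
  obtain ⟨D', hD'⟩ : ∃ D', D' = D * ∏ s ∈ S, (if s = 0 then 1 else s) := ⟨_, rfl⟩
  have hD'0 : 0 < D' := by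
    rw [hD']
    refine Nat.mul_pos hD (Finset.prod_pos fun s _ => ?_)
    split_ifs <;> omega
  have hD'd : ∀ p : ℕ, p.Prime → ¬ p ∣ D' → ¬ p ∣ D ∧ p ∉ S := by
    intro p hp h
    refine ⟨fun h1 => h (by rw [hD']; exact Dvd.dvd.mul_right h1 _), fun h1 => h ?_⟩
    rw [hD']
    refine Dvd.dvd.mul_left ?_ _
    have h2 := Finset.dvd_prod_of_mem (fun s => if s = 0 then 1 else s) h1
    rwa [if_neg hp.ne_zero] at h2
  obtain ⟨T1, hT1⟩ : ∃ T1 : Set ℕ, T1 = {p | p.Prime ∧ ¬ p ∣ D ∧ p ∉ S ∧ xp L g p ≠ 0} := ⟨_, rfl⟩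
  obtain ⟨m, hm⟩ : ∃ m, m = Nat.card Gal(L/ℚ) := ⟨_, rfl⟩
  have hm0 : 0 < m := by rw [hm]; exact Nat.card_pos
  have hxp : ∀ p ∈ T1, xp L g p ≤ m := by
    intro p hp
    rw [hT1] at hp
    have : Fact p.Prime := ⟨hp.1⟩
    have h1 : Nat.card (𝓞 L →+* AlgebraicClosure (ZMod p)) = Nat.card Gal(L/ℚ) :=
      (htor p hp.2.1).1
    unfold xp
    rw [dif_pos hp.1, hm, ← h1]
    have hfin : Finite (𝓞 L →+* AlgebraicClosure (ZMod p)) :=
      Nat.finite_of_card_ne_zero (by rw [h1, ← hm]; omega)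
    exact Nat.card_le_card_of_injective _ Subtype.val_injective
  have hM : Tendsto (M fun p => if p ∈ T1 then (xp L g p : ℝ) else 0) atTop (𝓝 1) := by
    refine M_congr hD'0 (b := fun p => (xp L g p : ℝ)) ?_ (chebotarev L g)
    intro p hp hpD
    obtain ⟨h1, h2⟩ := hD'd p hp hpD
    by_cases h3 : xp L g p = 0
    · rw [h3]; simp
    · rw [if_pos]
      rw [hT1]; exact ⟨hp, h1, h2, h3⟩
  have h1 := hM.eventually (lt_mem_nhds (by norm_num : (1 / 2 : ℝ) < 1))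
  have h2 := (h1.and (tendsto_pc.eventually (eventually_gt_atTop 0)))
  obtain ⟨N0, hN0⟩ := eventually_atTop.1 h2
  refine ⟨1 / (2 * m), by positivity, N0, fun N hN => ?_⟩
  obtain ⟨h3, h4⟩ := hN0 N hN
  unfold Pool.Agent.W401.Cheb.M at h3
  rw [lt_div_iff₀ h4] at h3
  have h5 : ∑ p ∈ pr N, (if p ∈ T1 then (xp L g p : ℝ) else 0) ≤
      m * (((range (N + 1)).filter fun k => k ∈ T1).card : ℝ) := by
    rw [← sum_filter]
    have h6 : (pr N).filter (fun k => k ∈ T1) ⊆ (range (N + 1)).filter fun k => k ∈ T1 := by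
      intro k hk
      rw [mem_filter] at hk ⊢
      exact ⟨(mem_filter.1 hk.1).1, hk.2⟩
    calc ∑ p ∈ (pr N).filter (fun k => k ∈ T1), (xp L g p : ℝ)
        ≤ ∑ p ∈ (pr N).filter (fun k => k ∈ T1), (m : ℝ) := by
          refine sum_le_sum fun p hp => ?_
          exact_mod_cast hxp p (mem_filter.1 hp).2
      _ ≤ ∑ p ∈ (range (N + 1)).filter (fun k => k ∈ T1), (m : ℝ) :=
          sum_le_sum_of_subset_of_nonneg h6 (fun _ _ _ => by positivity)
      _ = _ := by rw [sum_const, nsmul_eq_mul, mul_comm]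
  have h7 : (((range (N + 1)).filter fun k => k ∈ T1).card : ℝ) ≤
      (((range (N + 1)).filter fun k => k.Prime ∧ k ∉ S ∧ xp L g k ≠ 0).card : ℝ) := by
    norm_cast
    refine card_le_card fun k hk => ?_
    rw [mem_filter] at hk ⊢
    have h8 := hk.2
    rw [hT1] at h8
    exact ⟨hk.1, h8.1, h8.2.2.1, h8.2.2.2⟩
  have hmr : (0 : ℝ) < m := by exact_mod_cast hm0
  refine le_trans ?_ h7
  rw [div_mul_eq_mul_div, one_mul, div_le_iff₀ (by positivity)]
  linarith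

/-- the primes at which `σ₀` acts as a Frobenius element on `F` have positive lower density -/
theorem exists_density {F : IntermediateField ℚ Qb} (hF : FiniteDimensional ℚ F)
    (σ₀ : Gal(Qb/ℚ)) (S : Finset ℕ) : ∃ c : ℝ, 0 < c ∧ ∃ N₀ : ℕ, ∀ N, N₀ ≤ N →
      ∀ G : Set ℕ, (∀ p : ℕ, p.Prime → p ∉ S → (∀ M : IntermediateField ℚ Qb, SameOrbits σ₀ M F →
        ∀ A : ValuationSubring Qb, (p : Qb) ∈ A.nonunits → OneAbove M F A) → p ∈ G) →
      c * (Nat.primeCounting N : ℝ) ≤ ({p | p ≤ N ∧ p ∈ G}.ncard : ℝ) := by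
  classical
  have hac : IsAlgClosure ℚ Qb := ⟨AlgebraicClosure.isAlgClosed ℚ, isAlg_Qb⟩
  have hn : Normal ℚ Qb := IsAlgClosure.normal ℚ Qb
  obtain ⟨E', hfin, hnor, hle⟩ := exists_nc ℚ Qb F hF
  have hnf : NumberField E' :=
    @NumberField.of_module_finite ℚ E' _ _ _ (IntermediateField.algebra' E') hfin
  have e : (IntermediateField.algebra' E' : Algebra ℚ E') = DivisionRing.toRatAlgebra :=
    Subsingleton.elim _ _
  have hgal : @IsGalois ℚ _ E' _ DivisionRing.toRatAlgebra := by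
    rw [← e]
    exact @IsGalois.mk ℚ _ E' _ (IntermediateField.algebra' E') inferInstance hnor
  obtain ⟨g0, hg0⟩ : ∃ g0 : E' ≃+* E', ∀ z : E', ((g0 z : E') : Qb) = σ₀ z :=
    ⟨(σ₀.restrictNormal E').toRingEquiv, fun z => AlgEquiv.restrictNormal_commutes σ₀ E' z⟩
  have hstab : ∀ g : Gal(Qb/ℚ), ∀ x ∈ E', g x ∈ E' := by
    intro g x hx
    have h1 := AlgEquiv.restrictNormal_commutes g E' ⟨x, hx⟩
    have h2 : g x = ((g.restrictNormal E' ⟨x, hx⟩ : E') : Qb) := h1.symm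
    rw [h2]
    exact (g.restrictNormal E' ⟨x, hx⟩).2
  obtain ⟨g, hg⟩ : ∃ g : Gal(E'/ℚ), ∀ z : E', ((g z : E') : Qb) = σ₀ z :=
    ⟨AlgEquiv.ofRingEquiv (f := g0) (fun r => by simp), hg0⟩
  obtain ⟨c, hc, N₀, hN₀⟩ := cheb_lower E' g S
  refine ⟨c, hc, N₀, fun N hN G hG => (hN₀ N hN).trans ?_⟩
  have hsub : (((range (N + 1)).filter fun k => k.Prime ∧ k ∉ S ∧ xp E' g k ≠ 0 : Finset ℕ) :
      Set ℕ) ⊆ {p | p ≤ N ∧ p ∈ G} := by
    intro p hp
    rw [coe_filter, Set.mem_ofPred_eq] at hp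
    obtain ⟨hpN, hpp, hpS, hx⟩ := hp
    refine ⟨by rw [mem_range] at hpN; omega, hG p hpp hpS fun M hM A hA => ?_⟩
    have : Fact p.Prime := ⟨hpp⟩
    unfold xp at hx
    rw [dif_pos hpp] at hx
    obtain ⟨⟨φ, hφ⟩⟩ : Nonempty {φ : 𝓞 E' →+* AlgebraicClosure (ZMod p) //
        HasFrob p φ g} := by
      by_contra h
      rw [not_nonempty_iff] at h
      exact hx Nat.card_of_isEmpty
    obtain ⟨V, hV, φ', hφ', h⟩ := arith Qb E' σ₀ g hg p φ hφ
    refine oneAbove_of_frob hpp hle hstab hM hV (φ := φ') ?_ h A hA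
    ext z
    rw [ValuationSubring.mem_pointwise_smul_iff_inv_smul_mem]
    have h1 := hφ' (φ'⁻¹ z)
    rw [← AlgEquiv.mul_apply, mul_inv_cancel, AlgEquiv.one_apply] at h1
    exact h1.symm
  have hfinite : {p | p ≤ N ∧ p ∈ G}.Finite := (Set.finite_Iic N).subset fun p hp => hp.1
  rw [← Set.ncard_coe_finset]
  exact_mod_cast Set.ncard_le_ncard hsub hfinite

end Pool.Agent.K4H24.IW
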