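import Pool.Agent.K4H24.IW.Cyc

/-!
# The comparison theorem for number fields
-/

set_option autoImplicit false

namespace Pool.Agent.K4H24.IW

open Subgroup Module IntermediateField Pool.Agent.Q60.MU
open scoped Pointwise commutatorElement

/-- `M' / M` is a cyclic Galois extension whose degree is a power of `p` -/
structure CyclicPExt (p : ℕ) (M M' : IntermediateField ℚ Qb) : Prop where
  le : M ≤ M'
  fin : FiniteDimensional ℚ M'
  degree : ∃ m, finrank ℚ M' = p ^ m * finrank ℚ M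
  normal : ∀ σ ∈ M.fixingSubgroup, ∀ x ∈ M', σ x ∈ M'
  cyclic : ∃ γ ∈ M.fixingSubgroup, ∀ σ ∈ M.fixingSubgroup, ∃ i : ℤ, ∀ x ∈ M', σ x = (γ ^ i) x

/-- the prime of `M` below the valuation ring `A` of `Qb` has exactly one prime of `F` above it -/
def OneAbove (M F : IntermediateField ℚ Qb) (A : ValuationSubring Qb) : Prop :=
  ∀ σ ∈ M.fixingSubgroup, ∃ τ ∈ F.fixingSubgroup, σ • A = τ • A

/-- the prime of `M` below the valuation ring `A` ramifies in `M'` -/
def Ramifies (M M' : IntermediateField ℚ Qb) (A : ValuationSubring Qb) : Prop :=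
  ∃ σ ∈ inertia A, σ ∈ M.fixingSubgroup ∧ ∃ x ∈ M', σ x ≠ x

/-- the `p`-rank of the class group of `F` is at most the `p`-rank of the class group of `M` -/
def RankClLe (p : ℕ) (F M : IntermediateField ℚ Qb) : Prop :=
  ∃ C, ¬ DegLe p M C ∧ DegLe p F (C + 1)

/-- the degree of `F` over `M` is prime to `p` -/
def PrimeDeg (p : ℕ) (F M : IntermediateField ℚ Qb) : Prop :=
  ∃ d, finrank ℚ F = d * finrank ℚ M ∧ ¬ p ∣ d

section grp

variable {𝔾 : Type} [Group 𝔾]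

theorem count {p : ℕ} [Fact p.Prime] {K H M : Subgroup 𝔾} (hKH : K ≤ H) (hf : K.relIndex H ≠ 0)
    (hp : ¬ p ∣ K.relIndex H) (hMH : M ≤ H) (hMn : ∀ h ∈ H, ∀ x ∈ M, h * x * h⁻¹ ∈ M) {m : ℕ}
    (hm : M.relIndex H = p ^ m) :
    (K ⊓ M).relIndex K = M.relIndex H ∧ (K ⊓ M).relIndex M = K.relIndex H := by
  classical
  have hKM := exists_mul hp hMn hm
  have hfKM : (K ⊓ M).relIndex M ≠ 0 := by
    rw [inf_relIndex_right]
    exact fun h => hf (relIndex_eq_zero_of_le_right hMH h)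
  obtain ⟨ι, _, r, hr⟩ := exists_reps hfKM
  have hr' := hr.lift hMH hKM
  have hcard : (K ⊓ M).relIndex M = K.relIndex H := by rw [← hr.card, ← hr'.card]
  have h1 := relIndex_mul_relIndex (K ⊓ M) M H inf_le_right hMH
  have h2 := relIndex_mul_relIndex (K ⊓ M) K H inf_le_left hKH
  rw [hcard, ← h2, mul_comm] at h1
  exact ⟨(Nat.eq_of_mul_eq_mul_right (Nat.pos_of_ne_zero hf) h1).symm, hcard⟩

/-- the easy direction -/
theorem rankLe_down [TopologicalSpace 𝔾] {p : ℕ} [Fact p.Prime] {Ω : Type} {I : Ω → Subgroup 𝔾}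
    {L T : Subgroup 𝔾} (hLT : L ≤ T) (hLo : IsOpen (L : Set 𝔾)) (hf : L.relIndex T ≠ 0)
    (hp : ¬ p ∣ L.relIndex T) {C : ℕ} (hC : RankLe p I L C) : RankLe p I T C := by
  intro W hWT hWo hWf hWg
  obtain ⟨hWn, j, hj⟩ := relIndex_pow hWT hWf hWg
  obtain ⟨h1, -⟩ := count hLT hf hp hWT hWn hj
  rw [← h1]
  refine hC (L ⊓ W) inf_le_left ?_ (by rw [h1]; exact hWf) ?_
  · rw [Subgroup.coe_inf]
    exact hLo.inter hWo
  · intro x hx
    exact ⟨gens_subset hx, hWg (gens_mono hLT hx)⟩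

theorem grp_iff [TopologicalSpace 𝔾] [ContinuousMul 𝔾] {p : ℕ} [Fact p.Prime] {Ω : Type}
    [MulAction 𝔾 Ω] {I : Ω → Subgroup 𝔾}
    (hI : ∀ (g : 𝔾) (w : Ω), ∀ x ∈ I w, g * x * g⁻¹ ∈ I (g • w))
    {K H T : Subgroup 𝔾} (hKo : IsOpen (K : Set 𝔾)) (hKf : K.index ≠ 0) (hKH : K ≤ H)
    (hp : ¬ p ∣ K.relIndex H) (hTo : IsOpen (T : Set 𝔾)) (hTH : T ≤ H)
    (hTn : ∀ h ∈ H, ∀ x ∈ T, h * x * h⁻¹ ∈ T)
    {m : ℕ} (hTm : T.relIndex H = p ^ m) {γ : 𝔾} (hγ : γ ∈ H)
    (hcyc : ∀ h ∈ H, ∃ i : ℤ, γ ^ i * h ∈ T)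
    (hram : ∀ w, I w ⊓ H ≤ T ∨ ∀ h ∈ H, ∃ k ∈ K, h • w = k • w)
    {c : ℕ} (hc : ¬ RankLe p I H c) (hc' : RankLe p I K (c + 1)) (C : ℕ) :
    RankLe p I T C ↔ RankLe p I (K ⊓ T) C := by
  have hf : K.relIndex H ≠ 0 := by
    intro h
    have h1 := relIndex_mul_index hKH
    rw [h, zero_mul] at h1
    exact hKf h1.symm
  obtain ⟨-, h2⟩ := count hKH hf hp hTH hTn hTm
  constructor
  · intro hC
    unfold RankLe at hc
    push Not at hc
    obtain ⟨M, hMH, hMo, hMf, hMg, hMc⟩ := hc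
    exact main hI hKo hKf hKH hp hTH hTn hTm hγ hcyc hram hMH hMo hMf hMg (hc'.mono hMc) hC
  · intro hC
    refine rankLe_down inf_le_right ?_ ?_ ?_ hC
    · rw [Subgroup.coe_inf]
      exact hKo.inter hTo
    · rw [h2]
      exact hf
    · rw [h2]
      exact hp

end grp

theorem not_dvd_relIndex {p : ℕ} {M F : IntermediateField ℚ Qb} (hF : FiniteDimensional ℚ F)
    (hMF : M ≤ F) (hd : PrimeDeg p F M) :
    ¬ p ∣ F.fixingSubgroup.relIndex M.fixingSubgroup := by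
  obtain ⟨d, hd1, hd2⟩ := hd
  have h1 := relIndex_mul_index (fixingSubgroup_le hMF)
  have hF0 := index_ne_zero' F
  rw [finrank_eq_fixingSubgroup_index, finrank_eq_fixingSubgroup_index, ← h1] at hd1
  have hM0 : M.fixingSubgroup.index ≠ 0 := by
    intro h
    rw [h, mul_zero] at h1
    exact hF0 h1.symm
  rw [Nat.eq_of_mul_eq_mul_right (Nat.pos_of_ne_zero hM0) hd1]
  exact hd2

/-- **The comparison theorem for cyclic extensions of `p`-power degree.** -/
theorem field_main {p : ℕ} [Fact p.Prime] {M F M' : IntermediateField ℚ Qb}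
    (hF : FiniteDimensional ℚ F) (hMF : M ≤ F) (hd : PrimeDeg p F M) (hcl : RankClLe p F M)
    (hM' : CyclicPExt p M M') (hram : ∀ A, Ramifies M M' A → OneAbove M F A) (C : ℕ) :
    DegLe p M' C ↔ DegLe p (F ⊔ M') C := by
  have hp : p.Prime := Fact.out
  have hfM : FiniteDimensional ℚ M :=
    Submodule.finiteDimensional_of_le (S₁ := Subalgebra.toSubmodule M.toSubalgebra)
      (S₂ := Subalgebra.toSubmodule F.toSubalgebra) hMF
  have hfM' := hM'.fin
  obtain ⟨m, hm⟩ := hM'.degree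
  obtain ⟨γ, hγ, hcyc⟩ := hM'.cyclic
  obtain ⟨c, hc, hc'⟩ := hcl
  have hTH : M'.fixingSubgroup ≤ M.fixingSubgroup := fixingSubgroup_le hM'.le
  have hTm : M'.fixingSubgroup.relIndex M.fixingSubgroup = p ^ m := by
    have h1 := relIndex_mul_index hTH
    rw [finrank_eq_fixingSubgroup_index, finrank_eq_fixingSubgroup_index, ← h1] at hm
    exact Nat.eq_of_mul_eq_mul_right (Nat.pos_of_ne_zero (index_ne_zero' M)) hm
  have hcyc' : ∀ h ∈ M.fixingSubgroup, ∃ i : ℤ, γ ^ i * h ∈ M'.fixingSubgroup := by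
    intro h hh
    obtain ⟨i, hi⟩ := hcyc h hh
    refine ⟨-i, (IntermediateField.mem_fixingSubgroup_iff _ _).2 fun x hx => ?_⟩
    rw [AlgEquiv.mul_apply, hi x hx, ← AlgEquiv.mul_apply, ← zpow_add, neg_add_cancel, zpow_zero,
      AlgEquiv.one_apply]
  have hfFM : FiniteDimensional ℚ (F ⊔ M' : IntermediateField ℚ Qb) := inferInstance
  rw [← rankLe_iff, ← rankLe_iff, fixingSubgroup_sup]
  rw [← rankLe_iff] at hc hc'
  refine grp_iff inertia_conj F.fixingSubgroup_isOpen (index_ne_zero' F) (fixingSubgroup_le hMF)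
    (not_dvd_relIndex hF hMF hd) M'.fixingSubgroup_isOpen hTH ?_ hTm hγ hcyc' ?_ hc hc' C
  · intro h hh x hx
    refine (IntermediateField.mem_fixingSubgroup_iff _ _).2 fun y hy => ?_
    have h1 := hM'.normal _ (inv_mem hh) y hy
    have h2 := (IntermediateField.mem_fixingSubgroup_iff _ _).1 hx _ h1
    rw [AlgEquiv.mul_apply, AlgEquiv.mul_apply, h2, ← AlgEquiv.mul_apply, mul_inv_cancel,
      AlgEquiv.one_apply]
  · intro A
    by_cases h : Ramifies M M' A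
    · exact Or.inr (hram A h)
    · left
      rintro σ ⟨hσ, hσM⟩
      refine (IntermediateField.mem_fixingSubgroup_iff _ _).2 fun x hx => ?_
      by_contra h1
      exact h ⟨σ, hσ, hσM, x, hx, h1⟩

/-- **The comparison theorem for the layers of the cyclotomic `ℤ_p`-extension.** -/
theorem tower_main {p : ℕ} [hp : Fact p.Prime] (hp2 : p ≠ 2) {M F : IntermediateField ℚ Qb}
    (hF : FiniteDimensional ℚ F) (hMF : M ≤ F) (hd : PrimeDeg p F M) (hcl : RankClLe p F M)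
    (hone : ∀ A : ValuationSubring Qb, (p : Qb) ∈ A.nonunits → OneAbove M F A)
    {R : ℕ → IntermediateField ℚ Qb} (hR : IsCycTower p R) (m C : ℕ) :
    DegLe p (M ⊔ R m) C ↔ DegLe p (F ⊔ R m) C := by
  have hfM : FiniteDimensional ℚ M :=
    Submodule.finiteDimensional_of_le (S₁ := Subalgebra.toSubmodule M.toSubalgebra)
      (S₂ := Subalgebra.toSubmodule F.toSubalgebra) hMF
  obtain ⟨hfR, hRn, hRi, hRc, hRI⟩ := cyc_facts hp2 hR m
  obtain ⟨γ, hγ, hcyc⟩ := hRc M.fixingSubgroup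
  obtain ⟨c, hc, hc'⟩ := hcl
  have h1 : FiniteDimensional ℚ (M ⊔ R m : IntermediateField ℚ Qb) := inferInstance
  have h2 : FiniteDimensional ℚ (F ⊔ R m : IntermediateField ℚ Qb) := inferInstance
  have hKH := fixingSubgroup_le hMF
  have hTm : ∃ j, ((R m).fixingSubgroup ⊓ M.fixingSubgroup).relIndex M.fixingSubgroup = p ^ j := by
    rw [inf_relIndex_right]
    have h3 := relIndex_dvd_index_of_normal (R m).fixingSubgroup M.fixingSubgroup
    rw [hRi] at h3
    obtain ⟨j, -, hj⟩ := (Nat.dvd_prime_pow hp.1).1 h3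
    exact ⟨j, hj⟩
  obtain ⟨j, hj⟩ := hTm
  rw [← rankLe_iff, ← rankLe_iff, fixingSubgroup_sup, fixingSubgroup_sup]
  rw [← rankLe_iff] at hc hc'
  have h3 : F.fixingSubgroup ⊓ (R m).fixingSubgroup =
      F.fixingSubgroup ⊓ ((R m).fixingSubgroup ⊓ M.fixingSubgroup) := by
    rw [← inf_assoc, inf_right_comm, inf_eq_left.2 hKH]
  rw [h3, inf_comm M.fixingSubgroup]
  refine grp_iff inertia_conj F.fixingSubgroup_isOpen (index_ne_zero' F) hKH
    (not_dvd_relIndex hF hMF hd) ?_ inf_le_right ?_ hj hγ ?_ ?_ hc hc' C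
  · rw [Subgroup.coe_inf]
    exact (R m).fixingSubgroup_isOpen.inter M.fixingSubgroup_isOpen
  · intro h hh x hx
    exact ⟨hRn.conj_mem x hx.1 h, Subgroup.mul_mem _ (Subgroup.mul_mem _ hh hx.2)
      (Subgroup.inv_mem _ hh)⟩
  · intro h hh
    obtain ⟨i, hi⟩ := hcyc h hh
    exact ⟨i, hi, Subgroup.mul_mem _ (Subgroup.zpow_mem _ hγ i) hh⟩
  · intro A
    by_cases h : (p : Qb) ∈ A.nonunits
    · exact Or.inr (hone A h)
    · left
      rintro σ ⟨hσ, hσM⟩
      refine ⟨?_, hσM⟩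
      by_contra h1
      exact h (hRI A σ hσ h1)

theorem mu_main {p : ℕ} [hp : Fact p.Prime] (hp2 : p ≠ 2) {M F : IntermediateField ℚ Qb}
    (hF : FiniteDimensional ℚ F) (hMF : M ≤ F) (hd : PrimeDeg p F M) (hcl : RankClLe p F M)
    (hone : ∀ A : ValuationSubring Qb, (p : Qb) ∈ A.nonunits → OneAbove M F A)
    {R : ℕ → IntermediateField ℚ Qb} (hR : IsCycTower p R) : MuZero p R M ↔ MuZero p R F :=
  exists_congr fun C => forall_congr' fun m => tower_main hp2 hF hMF hd hcl hone hR m C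

end Pool.Agent.K4H24.IW
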