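import Pool.Agent.K4H24.IW.Ax

/-!
# The two key steps
-/

set_option autoImplicit false

namespace Pool.Agent.K4H24.IW

open Subgroup Module Pool.Agent.Q60.MU
open scoped commutatorElement

variable {𝔾 : Type} [Group 𝔾]

theorem relIndex_pow {p : ℕ} [Fact p.Prime] {Ω : Type} {I : Ω → Subgroup 𝔾} {H M : Subgroup 𝔾}
    (hMH : M ≤ H) (hf : M.relIndex H ≠ 0) (hg : gens p I H ⊆ M) :
    (∀ h ∈ H, ∀ x ∈ M, h * x * h⁻¹ ∈ M) ∧ ∃ m, M.relIndex H = p ^ m := by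
  have h0 : ∀ h ∈ H, ∀ x ∈ M, h * x * h⁻¹ ∈ M := by
    intro h hh x hx
    have h1 : h * x * h⁻¹ = ⁅h, x⁆ * x := by
      rw [commutatorElement_def]
      group
    rw [h1]
    exact M.mul_mem (hg (Or.inl (Or.inr ⟨h, hh, x, hMH hx, rfl⟩))) hx
  refine ⟨h0, ?_⟩
  have hN : (M.subgroupOf H).Normal := ⟨fun x hx g => h0 g g.2 x hx⟩
  have hfi : (M.subgroupOf H).FiniteIndex := ⟨hf⟩
  have hfin : Finite (H ⧸ M.subgroupOf H) := inferInstance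
  have hP : IsPGroup p (H ⧸ M.subgroupOf H) := by
    intro x
    obtain ⟨y, rfl⟩ := QuotientGroup.mk_surjective x
    refine ⟨1, ?_⟩
    rw [pow_one]
    show ((y ^ p : H) : H ⧸ M.subgroupOf H) = 1
    rw [QuotientGroup.eq_one_iff]
    exact hg (Or.inl (Or.inl ⟨y, y.2, rfl⟩))
  obtain ⟨m, hm⟩ := IsPGroup.iff_card.1 hP
  exact ⟨m, hm⟩

/-- commutators in a group which is generated by one element modulo central elements -/
theorem comm_mem {K L W : Subgroup 𝔾} (hWn : ∀ k ∈ K, ∀ x ∈ W, k * x * k⁻¹ ∈ W)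
    (hLK : L ≤ K) (hc : ∀ k ∈ K, ∀ l ∈ L, ⁅k, l⁆ ∈ W) {κ : 𝔾} (hκ : κ ∈ K)
    (hcyc : ∀ k ∈ K, ∃ i : ℤ, κ ^ i * k ∈ L) : ∀ a ∈ K, ∀ b ∈ K, ⁅a, b⁆ ∈ W := by
  have hN : (W.subgroupOf K).Normal := ⟨fun q hq l => hWn l l.2 q hq⟩
  let mk : K →* K ⧸ W.subgroupOf K := QuotientGroup.mk' _
  have hmk : ∀ x : K, mk x = 1 ↔ (x : 𝔾) ∈ W := fun x => QuotientGroup.eq_one_iff x
  have hcen : ∀ (l : 𝔾) (hl : l ∈ L) (k : K), Commute (mk k) (mk ⟨l, hLK hl⟩) := by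
    intro l hl k
    rw [← commutatorElement_eq_one_iff_commute, ← map_commutatorElement, hmk]
    exact hc k k.2 l hl
  have hdec : ∀ a : K, ∃ (i : ℤ) (l : 𝔾) (hl : l ∈ L), mk a = mk ⟨κ, hκ⟩ ^ i * mk ⟨l, hLK hl⟩ := by
    intro a
    obtain ⟨i, hi⟩ := hcyc a a.2
    refine ⟨-i, _, hi, ?_⟩
    rw [← map_zpow, ← map_mul]
    congr 1
    apply Subtype.ext
    show (a : 𝔾) = κ ^ (-i) * (κ ^ i * a)
    group
  intro a ha b hb
  obtain ⟨i, l, hl, h1⟩ := hdec ⟨a, ha⟩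
  obtain ⟨j, l', hl', h2⟩ := hdec ⟨b, hb⟩
  have h3 : Commute (mk ⟨a, ha⟩) (mk ⟨b, hb⟩) := by
    rw [h1, h2]
    refine Commute.mul_left ?_ ?_
    · refine Commute.mul_right ((Commute.refl _).zpow_zpow _ _) ?_
      rw [← map_zpow]
      exact hcen l' hl' _
    · refine Commute.mul_right ?_ (hcen l' hl' _)
      rw [← map_zpow]
      exact (hcen l hl _).symm
  rw [← commutatorElement_eq_one_iff_commute, ← map_commutatorElement, hmk] at h3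
  exact h3

/-- **The class number condition.** -/
theorem hom_eq_one [TopologicalSpace 𝔾] [ContinuousMul 𝔾] {p : ℕ} [Fact p.Prime] {Ω : Type} {I : Ω → Subgroup 𝔾}
    {K H M : Subgroup 𝔾} (hKo : IsOpen (K : Set 𝔾)) (hKH : K ≤ H) (hf : K.relIndex H ≠ 0)
    (hp : ¬ p ∣ K.relIndex H)
    (hMH : M ≤ H) (hMo : IsOpen (M : Set 𝔾)) (hMf : M.relIndex H ≠ 0) (hMg : gens p I H ⊆ M)
    (hR : RankLe p I K (M.relIndex H)) {A : Type} [CommGroup A] (ε : K →* A)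
    (hεp : ∀ x, ε x ^ p = 1) (hεI : ∀ w, ∀ x : K, (x : 𝔾) ∈ I w → ε x = 1) {U : Subgroup 𝔾}
    (hUo : IsOpen (U : Set 𝔾)) (hUf : U.relIndex K ≠ 0) (hU : ∀ x : K, (x : 𝔾) ∈ U → ε x = 1)
    (htr : ∀ h, tr hKH hf ε h = 1) : ∀ x, ε x = 1 := by
  classical
  obtain ⟨hMn, m, hm⟩ := relIndex_pow hMH hMf hMg
  have hKM := exists_mul hp hMn hm
  have hfKM : (K ⊓ M).relIndex M ≠ 0 := by
    rw [inf_relIndex_right]
    exact fun h => hf (relIndex_eq_zero_of_le_right hMH h)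
  obtain ⟨ι, _, r, hr⟩ := exists_reps hfKM
  have hr' := hr.lift hMH hKM
  have hcard : (K ⊓ M).relIndex M = K.relIndex H := by rw [← hr.card, ← hr'.card]
  have hcount : (K ⊓ M).relIndex K = M.relIndex H := by
    have h1 := relIndex_mul_relIndex (K ⊓ M) M H inf_le_right hMH
    have h2 := relIndex_mul_relIndex (K ⊓ M) K H inf_le_left hKH
    rw [hcard, ← h2, mul_comm] at h1
    exact (Nat.eq_of_mul_eq_mul_right (Nat.pos_of_ne_zero hf) h1).symm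
  let W : Subgroup 𝔾 := (ε.ker.map K.subtype) ⊓ M
  have hW : ∀ x, x ∈ W ↔ (∃ h : x ∈ K, ε ⟨x, h⟩ = 1) ∧ x ∈ M := by
    intro x
    constructor
    · rintro ⟨⟨y, hy, rfl⟩, hx⟩
      exact ⟨⟨y.2, hy⟩, hx⟩
    · rintro ⟨⟨h, h1⟩, hx⟩
      exact ⟨⟨⟨x, h⟩, h1, rfl⟩, hx⟩
  have hWK : W ≤ K := fun x hx => ((hW x).1 hx).1.1
  have hle : (U ⊓ M) ⊓ K ≤ W := by
    intro x hx
    exact (hW x).2 ⟨⟨hx.2, hU ⟨x, hx.2⟩ hx.1.1⟩, hx.1.2⟩
  have hWo : IsOpen (W : Set 𝔾) := by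
    refine Subgroup.isOpen_mono hle ?_
    rw [coe_inf, coe_inf]
    exact (hUo.inter hMo).inter hKo
  have hMK : M.relIndex K ≠ 0 := fun h => hMf (relIndex_eq_zero_of_le_right hKH h)
  have hWf : W.relIndex K ≠ 0 := by
    intro h
    have h1 := relIndex_eq_zero_of_le_left hle h
    rw [inf_relIndex_right] at h1
    exact relIndex_inf_ne_zero hUf hMK h1
  have hgW : gens p I K ⊆ W := by
    intro x hx
    have hxK : x ∈ K := gens_subset hx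
    refine (hW x).2 ⟨⟨hxK, ?_⟩, hMg (gens_mono hKH hx)⟩
    rcases hx with (⟨a, ha, rfl⟩ | ⟨a, ha, b, hb, rfl⟩) | ⟨hx, w, hw⟩
    · have h1 : (⟨a ^ p, hxK⟩ : K) = ⟨a, ha⟩ ^ p := Subtype.ext (by push_cast; rfl)
      rw [h1, map_pow, hεp]
    · have h1 : (⟨⁅a, b⁆, hxK⟩ : K) = ⁅(⟨a, ha⟩ : K), ⟨b, hb⟩⁆ := Subtype.ext rfl
      rw [h1, map_commutatorElement]
      exact commutatorElement_eq_one_iff_mul_comm.2 (mul_comm _ _)
    · exact hεI w _ hw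
  have h1 := hR W hWK hWo hWf hgW
  have hWKM : W ≤ K ⊓ M := fun x hx => ⟨hWK hx, ((hW x).1 hx).2⟩
  have h2 := relIndex_mul_relIndex W (K ⊓ M) K hWKM inf_le_left
  have h3 : W.relIndex (K ⊓ M) = 1 := by
    have h4 : W.relIndex (K ⊓ M) ≠ 0 := by
      intro h
      rw [h, zero_mul] at h2
      exact hWf h2.symm
    rw [← h2, ← hcount] at h1
    have h5 : (K ⊓ M).relIndex K ≠ 0 := by
      rw [hcount]
      exact hMf
    have h6 : W.relIndex (K ⊓ M) ≤ 1 := by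
      have h7 : W.relIndex (K ⊓ M) * (K ⊓ M).relIndex K ≤ 1 * (K ⊓ M).relIndex K := by
        rw [one_mul]
        exact h1
      exact Nat.le_of_mul_le_mul_right h7 (Nat.pos_of_ne_zero h5)
    omega
  rw [relIndex_eq_one] at h3
  intro x
  obtain ⟨nx, hnx⟩ := hr'.exists_nx (hKH x.2)
  have h4 := tr_eq hKH hf ε hr' (hKH x.2) nx hnx
  rw [htr] at h4
  have h5 : ∀ i, ε ⟨(r (nx i))⁻¹ * x * r i, hnx i⟩ = ε x := by
    intro i
    have h6 : (x : 𝔾)⁻¹ * ((r (nx i))⁻¹ * x * r i) ∈ K ⊓ M := by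
      refine ⟨K.mul_mem (K.inv_mem x.2) (hnx i), ?_⟩
      have h7 := hMn _ (H.inv_mem (hKH x.2)) _ (M.inv_mem (hr.mem (nx i)))
      have h8 : (x : 𝔾)⁻¹ * ((r (nx i))⁻¹ * x * r i) =
        (x : 𝔾)⁻¹ * (r (nx i))⁻¹ * (x : 𝔾)⁻¹⁻¹ * r i := by group
      rw [h8]
      exact M.mul_mem h7 (hr.mem i)
    obtain ⟨⟨h7, h8⟩, -⟩ := (hW _).1 (h3 h6)
    have h9 : (⟨(r (nx i))⁻¹ * x * r i, hnx i⟩ : K) =
        x * ⟨(x : 𝔾)⁻¹ * ((r (nx i))⁻¹ * x * r i), h7⟩ := Subtype.ext (by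
      show (r (nx i))⁻¹ * x * r i = x * ((x : 𝔾)⁻¹ * ((r (nx i))⁻¹ * x * r i))
      group)
    rw [h9, map_mul, h8, mul_one]
  rw [Finset.prod_congr rfl (fun i _ => h5 i), Finset.prod_const, Finset.card_univ, hr'.card] at h4
  have h6 := pow_gcd_eq_one.2 ⟨hεp x, h4.symm⟩
  rwa [((Fact.out : p.Prime).coprime_iff_not_dvd).2 hp, pow_one] at h6

/-- **The key step.** -/
theorem key [TopologicalSpace 𝔾] [ContinuousMul 𝔾] {p : ℕ} [Fact p.Prime] {Ω : Type}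
    [MulAction 𝔾 Ω] {I : Ω → Subgroup 𝔾}
    (hI : ∀ (g : 𝔾) (w : Ω), ∀ x ∈ I w, g * x * g⁻¹ ∈ I (g • w))
    {K H T : Subgroup 𝔾} (hKo : IsOpen (K : Set 𝔾)) (hKH : K ≤ H) (hf : K.relIndex H ≠ 0)
    (hp : ¬ p ∣ K.relIndex H) (hTH : T ≤ H) (hTn : ∀ h ∈ H, ∀ x ∈ T, h * x * h⁻¹ ∈ T)
    {m : ℕ} (hTm : T.relIndex H = p ^ m) {γ : 𝔾} (hγ : γ ∈ H)
    (hcyc : ∀ h ∈ H, ∃ i : ℤ, γ ^ i * h ∈ T)
    (hram : ∀ w, I w ⊓ H ≤ T ∨ ∀ h ∈ H, ∃ k ∈ K, h • w = k • w)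
    {M : Subgroup 𝔾} (hMH : M ≤ H) (hMo : IsOpen (M : Set 𝔾)) (hMf : M.relIndex H ≠ 0)
    (hMg : gens p I H ⊆ M) (hR : RankLe p I K (M.relIndex H))
    {W : Subgroup 𝔾} (hWo : IsOpen (W : Set 𝔾)) (hWf : W.index ≠ 0) (hWL : W ≤ K ⊓ T)
    (hWg : gens p I (K ⊓ T) ⊆ W) (hWn : ∀ k ∈ K, ∀ x ∈ W, k * x * k⁻¹ ∈ W)
    (hWc : ∀ k ∈ K, ∀ l ∈ K ⊓ T, ⁅k, l⁆ ∈ W)
    (htr : ∀ (A : Type) [CommGroup A] (ψ : K →* A), (∀ x : K, ψ x = 1 ↔ (x : 𝔾) ∈ W) →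
      ∀ y : H, (y : 𝔾) ∈ T → tr hKH hf ψ y = 1) : K ⊓ T ≤ W := by
  classical
  have hKT := exists_mul hp hTn hTm
  -- a generator of `K` modulo `K ⊓ T`
  have hTN : (T.subgroupOf H).Normal := ⟨fun x hx g => hTn g g.2 x hx⟩
  obtain ⟨t₀, ht₀, ht₀H, κ, hκ, hγκ⟩ := hKT γ hγ
  have hcyc' : ∀ k ∈ K, ∃ i : ℤ, κ ^ i * k ∈ K ⊓ T := by
    intro k hk
    obtain ⟨i, hi⟩ := hcyc k (hKH hk)
    refine ⟨i, K.mul_mem (K.zpow_mem hκ i) hk, ?_⟩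
    have h1 : ∀ x : H, QuotientGroup.mk' (T.subgroupOf H) x = 1 ↔ (x : 𝔾) ∈ T :=
      fun x => QuotientGroup.eq_one_iff x
    have h2 := (h1 (⟨γ, hγ⟩ ^ i * ⟨k, hKH hk⟩)).2 hi
    have h3 : QuotientGroup.mk' (T.subgroupOf H) ⟨γ, hγ⟩ =
        QuotientGroup.mk' (T.subgroupOf H) ⟨κ, hKH hκ⟩ := by
      have h4 : (⟨γ, hγ⟩ : H) = ⟨t₀, ht₀H⟩ * ⟨κ, hKH hκ⟩ := Subtype.ext hγκ
      rw [h4, map_mul, (h1 ⟨t₀, ht₀H⟩).2 ht₀, one_mul]
    rw [map_mul, map_zpow, h3, ← map_zpow, ← map_mul, h1] at h2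
    exact h2
  obtain ⟨A, _, ψ, hψ, hlift⟩ := exists_quot hWn
    (comm_mem hWn inf_le_left hWc hκ hcyc')
  obtain ⟨B, _, π, hπ, -⟩ := exists_quot hTn
    (comm_mem hTn hTH (fun k hk l hl => by
      rw [commutatorElement_def]
      exact T.mul_mem (hTn k hk l hl) (T.inv_mem hl)) hγ hcyc)
  obtain ⟨f, hfψ⟩ := hlift B (π.comp (inclusion hKH)) (fun x hx => (hπ _).2 (hWL hx).2)
  have hfψ' : ∀ k : K, f (ψ k) = π ⟨k, hKH k.2⟩ := hfψ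
  obtain ⟨τ, hτ⟩ : ∃ τ, τ = tr hKH hf ψ := ⟨_, rfl⟩
  obtain ⟨n, hn⟩ : ∃ n, n = K.relIndex H := ⟨_, rfl⟩
  have hfτ : ∀ h (hh : h ∈ H), f (τ ⟨h, hh⟩) = π ⟨h, hh⟩ ^ n := by
    intro h hh
    rw [hτ, hn]
    exact tr_map hKH hf ψ f π hfψ' hh
  have hτT : ∀ y : H, (y : 𝔾) ∈ T → τ y = 1 := by
    rw [hτ]
    exact htr A ψ hψ
  obtain ⟨δ, hδ⟩ : ∃ δ : K →* A, ∀ x, δ x = ψ x ^ n / τ ⟨x, hKH x.2⟩ :=
    ⟨ψ ^ n / τ.comp (inclusion hKH), fun x => rfl⟩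
  -- `δ` is unramified
  have hδI : ∀ w, ∀ x : K, (x : 𝔾) ∈ I w → δ x = 1 := by
    intro w x hx
    rcases hram w with h | h
    · have hxT : (x : 𝔾) ∈ T := h ⟨hx, hKH x.2⟩
      have h1 : ψ x = 1 := (hψ x).2 (hWg (Or.inr ⟨⟨x.2, hxT⟩, w, hx⟩))
      rw [hδ, h1, hτT _ hxT, one_pow, div_one]
    · have h1 : τ ⟨x, hKH x.2⟩ ∈ ((I w).subgroupOf K).map ψ := by
        rw [hτ]
        refine tr_mem hKH hf ψ _ _ fun g hg k hk => ?_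
        obtain ⟨k', hk', hgw⟩ := h g⁻¹ (H.inv_mem hg)
        have h2 : g⁻¹ * (x : 𝔾) ^ k * g ∈ I (k' • w) := by
          have h3 := hI g⁻¹ w _ ((I w).pow_mem hx k)
          rw [hgw, inv_inv] at h3
          exact h3
        have h3 := hI k'⁻¹ _ _ h2
        rw [inv_smul_smul, inv_inv] at h3
        refine ⟨⟨k'⁻¹ * (g⁻¹ * (x : 𝔾) ^ k * g) * k', K.mul_mem (K.mul_mem (K.inv_mem hk') hk) hk'⟩,
          h3, ?_⟩
        have h4 : (⟨k'⁻¹ * (g⁻¹ * (x : 𝔾) ^ k * g) * k',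
            K.mul_mem (K.mul_mem (K.inv_mem hk') hk) hk'⟩ : K) =
            (⟨k', hk'⟩ : K)⁻¹ * ⟨g⁻¹ * (x : 𝔾) ^ k * g, hk⟩ * ⟨k', hk'⟩ := rfl
        rw [h4, map_mul, map_mul, map_inv, mul_comm, mul_inv_cancel_left]
      have h2 : δ x ∈ ((I w).subgroupOf K).map ψ := by
        rw [hδ]
        exact div_mem (pow_mem (mem_map_of_mem ψ (by exact hx)) n) h1
      obtain ⟨y, hy, hyδ⟩ := h2
      have h3 : f (δ x) = 1 := by
        rw [hδ, map_div, map_pow, hfψ', hfτ, div_self']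
      rw [← hyδ, hfψ', hπ] at h3
      rw [← hyδ, hψ]
      exact hWg (Or.inr ⟨⟨y.2, h3⟩, w, hy⟩)
  -- openness
  have hUo := isOpen_normalCore hWo hWf
  have hUn : W.normalCore.Normal := normalCore_normal _
  have hWfi : W.FiniteIndex := ⟨hWf⟩
  have hUf : W.normalCore.relIndex K ≠ 0 := by
    have h1 : (W.normalCore.subgroupOf K).FiniteIndex := inferInstance
    exact h1.index_ne_zero
  have hUψ : ∀ x : K, (x : 𝔾) ∈ W.normalCore → δ x = 1 := by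
    intro x hx
    have h1 : ψ x = 1 := (hψ x).2 (normalCore_le W hx)
    have h2 : τ ⟨x, hKH x.2⟩ = 1 := by
      rw [hτ, ← mem_bot]
      refine tr_mem hKH hf ψ _ _ fun g hg k hk => ?_
      rw [mem_bot, hψ]
      have h3 := hUn.conj_mem _ (pow_mem hx k) g⁻¹
      rw [inv_inv] at h3
      exact normalCore_le W h3
    rw [hδ, h1, h2, one_pow, div_one]
  -- the transfer of the powers of `δ`
  have hτδ : ∀ N : ℕ, ∀ h, tr hKH hf (δ ^ N) h = 1 := by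
    rintro N ⟨h, hh⟩
    obtain ⟨ι, _, r, hr⟩ := exists_reps hf
    obtain ⟨nx, hnx⟩ := hr.exists_nx hh
    have h1 := tr_eq hKH hf (δ ^ N) hr hh nx hnx
    have h2 := tr_eq hKH hf ψ hr hh nx hnx
    have h3 := tr_eq hKH hf (τ.comp (inclusion hKH)) hr hh nx hnx
    have h4 := tr_map hKH hf (τ.comp (inclusion hKH)) (MonoidHom.id A) τ (fun k => rfl) hh
    rw [MonoidHom.id_apply, h3, ← hn] at h4
    rw [← hτ] at h2
    have h5 : ∀ i, (δ ^ N) ⟨(r (nx i))⁻¹ * h * r i, hnx i⟩ =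
        (ψ ⟨(r (nx i))⁻¹ * h * r i, hnx i⟩ ^ n /
          (τ.comp (inclusion hKH)) ⟨(r (nx i))⁻¹ * h * r i, hnx i⟩) ^ N := by
      intro i
      rw [MonoidHom.pow_apply, hδ]
      rfl
    rw [h1, Finset.prod_congr rfl (fun i _ => h5 i), Finset.prod_pow, Finset.prod_div_distrib,
      Finset.prod_pow, ← h2, h4, div_self', one_pow]
  -- exponents
  have hψexp : ∀ x : K, ψ x ^ p ^ (m + 1) = 1 := by
    intro x
    have h1 : (x : 𝔾) ^ p ^ m ∈ T := by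
      have h2 := pow_index_mem (T.subgroupOf H) (⟨x, hKH x.2⟩ : H)
      have h3 : (T.subgroupOf H).index = p ^ m := hTm
      rw [h3] at h2
      exact h2
    have h2 : ψ (x ^ p ^ (m + 1)) = 1 := by
      rw [hψ]
      refine hWg (Or.inl (Or.inl ⟨(x : 𝔾) ^ p ^ m, ⟨K.pow_mem x.2 _, h1⟩, ?_⟩))
      rw [← pow_mul, ← pow_succ]
      rfl
    rw [← map_pow]
    exact h2
  have hδexp : δ ^ p ^ (m + 1) = 1 := by
    ext x
    rw [MonoidHom.pow_apply, hδ, MonoidHom.one_apply]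
    have h1 : τ ⟨x, hKH x.2⟩ ∈ (powMonoidHom (p ^ (m + 1)) : A →* A).ker := by
      rw [hτ]
      exact tr_mem hKH hf ψ _ _ fun g hg k hk => hψexp _
    have h2 : τ ⟨x, hKH x.2⟩ ^ p ^ (m + 1) = 1 := h1
    rw [div_pow, h2, div_one, ← pow_mul, mul_comm, pow_mul, hψexp, one_pow]
  have hstep : ∀ j, δ ^ p ^ j = 1 → δ = 1 := by
    intro j
    induction j with
    | zero =>
      intro h
      rwa [pow_zero, pow_one] at h
    | succ j ih =>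
      intro h
      apply ih
      ext x
      refine hom_eq_one hKo hKH hf hp hMH hMo hMf hMg hR (δ ^ p ^ j) (fun x => ?_) (fun w x hx => ?_)
        hUo hUf (fun x hx => ?_) (hτδ _) x
      · rw [← MonoidHom.pow_apply, ← pow_mul, ← pow_succ, h, MonoidHom.one_apply]
      · rw [MonoidHom.pow_apply, hδI w x hx, one_pow]
      · rw [MonoidHom.pow_apply, hUψ x hx, one_pow]
  have hδ1 := hstep _ hδexp
  intro l hl
  have h1 : ψ ⟨l, hl.1⟩ ^ n = 1 := by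
    have h2 := hδ ⟨l, hl.1⟩
    rw [hδ1, MonoidHom.one_apply, hτT _ hl.2, div_one] at h2
    exact h2.symm
  have h2 : ψ ⟨l, hl.1⟩ ^ p = 1 := by
    rw [← map_pow, hψ]
    exact hWg (Or.inl (Or.inl ⟨l, hl, rfl⟩))
  have h3 := pow_gcd_eq_one.2 ⟨h2, h1⟩
  rw [hn, ((Fact.out : p.Prime).coprime_iff_not_dvd).2 hp, pow_one, hψ] at h3
  exact h3

end Pool.Agent.K4H24.IW
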