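import Pool.Agent.K4H24.IW.Key

/-!
# The comparison theorem for groups
-/

set_option autoImplicit false

namespace Pool.Agent.K4H24.IW

open Subgroup Module Pool.Agent.Q60.MU
open scoped commutatorElement

variable {𝔾 : Type} [Group 𝔾]

theorem prod_eq_one {L A B : Type} [Group L] [CommGroup A] [CommGroup B] (F : L →* A) (G : L →* B)
    (h : ∀ x, F x = 1 → G x = 1) {ι : Type} [Fintype ι] (x : ι → L) (hF : ∏ i, F (x i) = 1) :
    ∏ i, G (x i) = 1 := by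
  have h1 : ∀ (C : Type) [CommGroup C] (E : L →* C),
      E ((Finset.univ.toList.map x).prod) = ∏ i, E (x i) := by
    intro C _ E
    rw [map_list_prod, List.map_map, ← Finset.prod_map_toList]
    rfl
  rw [← h1 B G]
  apply h
  rw [h1 A F, hF]

/-- **The comparison theorem.** -/
theorem main [TopologicalSpace 𝔾] [ContinuousMul 𝔾] {p : ℕ} [Fact p.Prime] {Ω : Type}
    [MulAction 𝔾 Ω] {I : Ω → Subgroup 𝔾}
    (hI : ∀ (g : 𝔾) (w : Ω), ∀ x ∈ I w, g * x * g⁻¹ ∈ I (g • w))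
    {K H T : Subgroup 𝔾} (hKo : IsOpen (K : Set 𝔾)) (hKf : K.index ≠ 0) (hKH : K ≤ H)
    (hp : ¬ p ∣ K.relIndex H) (hTH : T ≤ H) (hTn : ∀ h ∈ H, ∀ x ∈ T, h * x * h⁻¹ ∈ T)
    {m : ℕ} (hTm : T.relIndex H = p ^ m) {γ : 𝔾} (hγ : γ ∈ H)
    (hcyc : ∀ h ∈ H, ∃ i : ℤ, γ ^ i * h ∈ T)
    (hram : ∀ w, I w ⊓ H ≤ T ∨ ∀ h ∈ H, ∃ k ∈ K, h • w = k • w)
    {M : Subgroup 𝔾} (hMH : M ≤ H) (hMo : IsOpen (M : Set 𝔾)) (hMf : M.relIndex H ≠ 0)
    (hMg : gens p I H ⊆ M) (hR : RankLe p I K (M.relIndex H)) {C : ℕ} (hC : RankLe p I T C) :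
    RankLe p I (K ⊓ T) C := by
  classical
  have hf : K.relIndex H ≠ 0 := by
    intro h
    have h1 := relIndex_mul_index hKH
    rw [h, zero_mul] at h1
    exact hKf h1.symm
  have hHf : H.index ≠ 0 := by
    intro h
    have h1 := relIndex_mul_index hKH
    rw [h, mul_zero] at h1
    exact hKf h1.symm
  have hTf0 : T.relIndex H ≠ 0 := by
    rw [hTm]
    exact pow_ne_zero _ (Fact.out : p.Prime).ne_zero
  have hTf : T.index ≠ 0 := by
    rw [← relIndex_mul_index hTH]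
    exact mul_ne_zero hTf0 hHf
  have hTK : T.relIndex K ≠ 0 := fun h => hTf0 (relIndex_eq_zero_of_le_right hKH h)
  have hLT : (K ⊓ T).relIndex T ≠ 0 := by
    rw [inf_relIndex_right]
    exact fun h => hf (relIndex_eq_zero_of_le_right hTH h)
  have hLf : (K ⊓ T).index ≠ 0 := by
    rw [← relIndex_mul_index (inf_le_right : K ⊓ T ≤ T)]
    exact mul_ne_zero hLT hTf
  have hKL : ∀ d ∈ K, ∀ x ∈ K ⊓ T, d * x * d⁻¹ ∈ K ⊓ T := fun d hd x hx =>
    ⟨K.mul_mem (K.mul_mem hd hx.1) (K.inv_mem hd), hTn d (hKH hd) x hx.2⟩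
  intro W₀ hW₀L hW₀o hW₀f hW₀g
  obtain ⟨W', hW'W, hW'o, hW'f, hW'g, hW'n⟩ := exists_core hI hKL (by
    rw [inf_relIndex_left]
    exact hTK) hW₀L hW₀o hW₀f hW₀g
  refine (relIndex_le_of_le_left hW'W hW'f).trans ?_
  have hW'L : W' ≤ K ⊓ T := hW'W.trans hW₀L
  have hW'i : W'.index ≠ 0 := by
    rw [← relIndex_mul_index hW'L]
    exact mul_ne_zero hW'f hLf
  obtain ⟨V, _, _, _, ρ, π, hπs, hπm, hπ0, hρ⟩ := exists_rep (inf_le_left : K ⊓ T ≤ K) hKL hW'f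
    hW'g hW'n
  have hπ1 : π 1 = 0 := by
    rw [hπ0]
    exact W'.one_mem
  obtain ⟨ψ, hψ⟩ : ∃ ψ : ↥(K ⊓ T) →* Multiplicative V, ∀ x, ψ x = Multiplicative.ofAdd (π x) :=
    ⟨{ toFun := fun x => Multiplicative.ofAdd (π x)
       map_one' := by
        rw [hπ1]
        rfl
       map_mul' := fun x y => by
        rw [hπm]
        rfl }, fun x => rfl⟩
  have hψ1 : ∀ x : ↥(K ⊓ T), ψ x = 1 ↔ (x : 𝔾) ∈ W' := by
    intro x
    rw [hψ, ← hπ0]
    exact Iff.rfl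
  have hψs : Function.Surjective ψ := by
    intro v
    obtain ⟨x, hx⟩ := hπs v.toAdd
    exact ⟨x, by rw [hψ, hx]; rfl⟩
  obtain ⟨t, ht⟩ : ∃ t, t = tr (inf_le_right : K ⊓ T ≤ T) hLT ψ := ⟨_, rfl⟩
  -- the image of the transfer
  have hsurj : Function.Surjective t := by
    let U₀ : AddSubgroup V :=
      { carrier := {v | ∃ y, t y = Multiplicative.ofAdd v}
        zero_mem' := ⟨1, map_one t⟩
        add_mem' := by
          rintro a b ⟨y, hy⟩ ⟨z, hz⟩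
          exact ⟨y * z, by rw [map_mul, hy, hz]; rfl⟩
        neg_mem' := by
          rintro a ⟨y, hy⟩
          exact ⟨y⁻¹, by rw [map_inv, hy]; rfl⟩ }
    let U : Submodule (ZMod p) V := AddSubgroup.toZModSubmodule p U₀
    have hU : ∀ v, v ∈ U ↔ ∃ y, t y = Multiplicative.ofAdd v := fun v => Iff.rfl
    by_contra hns
    have hUt : U ≠ ⊤ := by
      intro h
      apply hns
      intro v
      have h1 : v.toAdd ∈ U := by
        rw [h]
        exact Submodule.mem_top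
      obtain ⟨y, hy⟩ := (hU _).1 h1
      exact ⟨y, hy⟩
    have hUst : ∀ g : K, ∀ v ∈ U, ρ g v ∈ U := by
      rintro ⟨g, hg⟩ v hv
      obtain ⟨⟨y, hyT⟩, hy⟩ := (hU _).1 hv
      have hgi := K.inv_mem hg
      have hTn' : ∀ x ∈ T, g⁻¹ * x * g ∈ T := by
        intro x hx
        have h1 := hTn g⁻¹ (hKH hgi) x hx
        rwa [inv_inv] at h1
      have hKL' : ∀ x ∈ K ⊓ T, g⁻¹ * x * g ∈ K ⊓ T := by
        intro x hx
        have h1 := hKL g⁻¹ hgi x hx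
        rwa [inv_inv] at h1
      have h1 := tr_conj (inf_le_right : K ⊓ T ≤ T) hLT ψ (g := g) (hKL g hg) hKL'
        (hTn g (hKH hg)) hTn' (AddMonoidHom.toMultiplicative (ρ ⟨g, hg⟩).toAddMonoidHom)
        (fun x => by
          rw [hψ, hψ, ← hρ ⟨g, hg⟩ x]
          rfl) hyT
      rw [← ht, hy] at h1
      exact (hU _).2 ⟨_, h1.symm⟩
    have hLtriv : ∀ (l : K), (l : 𝔾) ∈ K ⊓ T → ∀ v, ρ l v = v := by
      intro l hl v
      obtain ⟨x, rfl⟩ := hπs v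
      rw [hρ]
      have h1 : (⟨(l : 𝔾) * x * (l : 𝔾)⁻¹, hKL l l.2 x x.2⟩ : ↥(K ⊓ T)) =
        (⟨l, hl⟩ : ↥(K ⊓ T)) * x * (⟨l, hl⟩ : ↥(K ⊓ T))⁻¹ := rfl
      have h2 := hψ ((⟨l, hl⟩ : ↥(K ⊓ T)) * x * (⟨l, hl⟩ : ↥(K ⊓ T))⁻¹)
      rw [map_mul, map_mul, map_inv, mul_comm, inv_mul_cancel_left, hψ] at h2
      rw [h1]
      exact (Multiplicative.ofAdd.injective h2).symm
    obtain ⟨φ, hφ0, hφU, hφρ⟩ := exists_functional (p := p) ρ (fun g => by
      refine ⟨m, hLtriv _ ⟨(g ^ p ^ m : K).2, ?_⟩⟩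
      have hTN : (T.subgroupOf H).Normal := ⟨fun x hx g => hTn g g.2 x hx⟩
      have h2 := pow_index_mem (T.subgroupOf H) (⟨g, hKH g.2⟩ : H)
      have h3 : (T.subgroupOf H).index = p ^ m := hTm
      rw [h3] at h2
      exact h2) U hUst hUt
    obtain ⟨F, hF⟩ : ∃ F : ↥(K ⊓ T) →* Multiplicative (ZMod p),
        ∀ x, F x = Multiplicative.ofAdd (φ (π x)) :=
      ⟨(AddMonoidHom.toMultiplicative φ.toAddMonoidHom).comp ψ, fun x => by
        rw [MonoidHom.comp_apply, hψ]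
        rfl⟩
    let W : Subgroup 𝔾 := F.ker.map (K ⊓ T).subtype
    have hW : ∀ x, x ∈ W ↔ ∃ h : x ∈ K ⊓ T, φ (π ⟨x, h⟩) = 0 := by
      intro x
      constructor
      · rintro ⟨y, hy, rfl⟩
        refine ⟨y.2, ?_⟩
        have h1 : F y = 1 := hy
        rw [hF] at h1
        exact h1
      · rintro ⟨h, h1⟩
        refine ⟨⟨x, h⟩, ?_, rfl⟩
        show F _ = 1
        rw [hF, h1]
        rfl
    have hW'le : W' ≤ W := by
      intro x hx
      refine (hW x).2 ⟨hW'L hx, ?_⟩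
      rw [(hπ0 ⟨x, hW'L hx⟩).2 hx, map_zero]
    have hWL : W ≤ K ⊓ T := fun x hx => ((hW x).1 hx).1
    have hcl : K ⊓ T ≤ W := by
      refine key hI hKo hKH hf hp hTH hTn hTm hγ hcyc hram hMH hMo hMf hMg hR
        (Subgroup.isOpen_mono hW'le hW'o) (fun h => hW'i ?_) hWL (fun x hx => hW'le (hW'g hx))
        ?_ ?_ ?_
      · have h1 := relIndex_mul_index hW'le
        rw [h, mul_zero] at h1
        exact h1.symm
      · intro k hk x hx
        obtain ⟨h1, h2⟩ := (hW x).1 hx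
        refine (hW _).2 ⟨hKL k hk x h1, ?_⟩
        have h3 := hρ ⟨k, hk⟩ ⟨x, h1⟩
        rw [← h3, hφρ, h2]
      · intro k hk l hl
        have h0 : ⁅k, l⁆ ∈ K ⊓ T := by
          rw [commutatorElement_def]
          exact (K ⊓ T).mul_mem (hKL k hk l hl) ((K ⊓ T).inv_mem hl)
        refine (hW _).2 ⟨h0, ?_⟩
        have h3 := hρ ⟨k, hk⟩ ⟨l, hl⟩
        have h4 : (⟨⁅k, l⁆, h0⟩ : ↥(K ⊓ T)) * ⟨l, hl⟩ = ⟨k * l * k⁻¹, hKL k hk l hl⟩ := by
          apply Subtype.ext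
          show ⁅k, l⁆ * l = k * l * k⁻¹
          rw [commutatorElement_def]
          group
        have h5 := hπm ⟨⁅k, l⁆, h0⟩ ⟨l, hl⟩
        rw [h4] at h5
        have h6 := congrArg φ h5
        rw [map_add] at h6
        have h7 : φ (π ⟨k * l * k⁻¹, hKL k hk l hl⟩) = φ (π ⟨l, hl⟩) := by
          rw [← hφρ ⟨k, hk⟩ (π ⟨l, hl⟩), h3]
        rw [h7] at h6
        exact left_eq_add.1 (h6.trans (add_comm _ _))
      · rintro A _ χ hχ ⟨y, hyH⟩ hyT
        obtain ⟨ι, _, r, hr⟩ := exists_reps hLT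
        obtain ⟨nx, hnx⟩ := hr.exists_nx hyT
        have hr' := hr.lift hTH (exists_mul hp hTn hTm)
        rw [tr_eq hKH hf χ hr' hyH nx (fun i => (hnx i).1)]
        have h1 := tr_eq (inf_le_right : K ⊓ T ≤ T) hLT ψ hr hyT nx hnx
        have h2 : ∏ i, F ⟨(r (nx i))⁻¹ * y * r i, hnx i⟩ = 1 := by
          have h3 : ∀ z, F z = (AddMonoidHom.toMultiplicative φ.toAddMonoidHom) (ψ z) := by
            intro z
            rw [hF, hψ]
            rfl
          rw [Finset.prod_congr rfl (fun i _ => h3 _), ← map_prod, ← h1, ← ht]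
          exact congrArg Multiplicative.ofAdd (hφU (t ⟨y, hyT⟩).toAdd ((hU _).2 ⟨_, rfl⟩))
        exact prod_eq_one F (χ.comp (inclusion inf_le_left)) (fun x hx => by
          show χ _ = 1
          rw [hχ]
          refine (hW _).2 ⟨x.2, ?_⟩
          rw [hF] at hx
          exact hx) (fun i => (⟨(r (nx i))⁻¹ * y * r i, hnx i⟩ : ↥(K ⊓ T))) h2
    apply hφ0
    apply LinearMap.ext
    intro v
    obtain ⟨x, rfl⟩ := hπs v
    obtain ⟨h, h1⟩ := (hW x).1 (hcl x.2)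
    exact h1
  -- the count
  let WT : Subgroup 𝔾 := t.ker.map T.subtype
  have hWT : ∀ x, x ∈ WT ↔ ∃ h : x ∈ T, t ⟨x, h⟩ = 1 := by
    intro x
    constructor
    · rintro ⟨y, hy, rfl⟩
      exact ⟨y.2, hy⟩
    · rintro ⟨h, h1⟩
      exact ⟨⟨x, h⟩, h1, rfl⟩
  have hWTi : WT.relIndex T = t.ker.index := by
    show ((t.ker.map T.subtype).comap T.subtype).index = t.ker.index
    rw [comap_map_eq_self_of_injective T.subtype_injective]
  have hcount : WT.relIndex T = W'.relIndex (K ⊓ T) := by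
    have h1 : W'.relIndex (K ⊓ T) = ψ.ker.index := by
      show (W'.subgroupOf (K ⊓ T)).index = ψ.ker.index
      congr 1
      ext x
      exact (hψ1 x).symm
    rw [hWTi, h1, index_ker, index_ker, MonoidHom.range_eq_top.2 hsurj,
      MonoidHom.range_eq_top.2 hψs]
  have hW'fi : W'.FiniteIndex := ⟨hW'i⟩
  have hNn : W'.normalCore.Normal := normalCore_normal _
  rw [← hcount]
  refine hC WT (fun x hx => ((hWT x).1 hx).1) ?_ (by rw [hcount]; exact hW'f) ?_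
  · refine Subgroup.isOpen_mono (fun x hx => ?_) (isOpen_normalCore hW'o hW'i)
    have hxT : x ∈ T := (hW'L (normalCore_le W' hx)).2
    refine (hWT x).2 ⟨hxT, ?_⟩
    rw [ht, ← mem_bot]
    refine tr_mem _ hLT ψ _ _ fun g hg k hk => ?_
    rw [mem_bot, hψ1]
    have h3 := hNn.conj_mem _ (pow_mem hx k) g⁻¹
    rw [inv_inv] at h3
    exact normalCore_le W' h3
  · intro x hx
    have hxT : x ∈ T := gens_subset hx
    refine (hWT x).2 ⟨hxT, ?_⟩
    rcases hx with (⟨a, ha, rfl⟩ | ⟨a, ha, b, hb, rfl⟩) | ⟨hx, w, hw⟩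
    · have h1 : (⟨a ^ p, hxT⟩ : T) = ⟨a, ha⟩ ^ p := rfl
      rw [h1, map_pow]
      exact congrArg Multiplicative.ofAdd (ZModModule.char_nsmul_eq_zero p (t ⟨a, ha⟩).toAdd)
    · have h1 : (⟨⁅a, b⁆, hxT⟩ : T) = ⁅(⟨a, ha⟩ : T), ⟨b, hb⟩⁆ := rfl
      rw [h1, map_commutatorElement]
      exact commutatorElement_eq_one_iff_mul_comm.2 (mul_comm _ _)
    · rw [ht, ← mem_bot]
      refine tr_mem _ hLT ψ _ _ fun g hg k hk => ?_
      rw [mem_bot, hψ1]
      refine hW'g (Or.inr ⟨hk, g⁻¹ • w, ?_⟩)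
      have h3 := hI g⁻¹ w _ (pow_mem hw k)
      rwa [inv_inv] at h3

end Pool.Agent.K4H24.IW
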