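import Mathlib

/-!
# Transfers with explicit representatives
-/

set_option autoImplicit false

namespace Pool.Agent.K4H24.IW

open Subgroup

variable {𝔾 : Type} [Group 𝔾]

/-- the transfer to `H` of a homomorphism `ψ : K → A` -/
noncomputable def tr {K H : Subgroup 𝔾} (hKH : K ≤ H) (hf : K.relIndex H ≠ 0) {A : Type}
    [CommGroup A] (ψ : K →* A) : H →* A :=
  haveI : (K.subgroupOf H).FiniteIndex := ⟨hf⟩
  MonoidHom.transfer (H := K.subgroupOf H) (ψ.comp (subgroupOfEquivOfLe hKH).toMonoidHom)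

/-- a system of representatives of the left cosets of `K` in `H` -/
structure Reps (K H : Subgroup 𝔾) {ι : Type} (r : ι → 𝔾) : Prop where
  mem : ∀ i, r i ∈ H
  ex : ∀ h ∈ H, ∃ i, (r i)⁻¹ * h ∈ K
  inj : ∀ i j, (r i)⁻¹ * r j ∈ K → i = j

/-- there is a system of representatives -/
theorem exists_reps {K H : Subgroup 𝔾} (hf : K.relIndex H ≠ 0) :
    ∃ (ι : Type) (_ : Fintype ι) (r : ι → 𝔾), Reps K H r := by
  have : (K.subgroupOf H).FiniteIndex := ⟨hf⟩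
  refine ⟨H ⧸ K.subgroupOf H, Fintype.ofFinite _, fun q => ((q.out : H) : 𝔾), ⟨fun q => q.out.2, ?_, ?_⟩⟩
  · intro h hh
    refine ⟨((⟨h, hh⟩ : H) : H ⧸ K.subgroupOf H), ?_⟩
    have h1 := QuotientGroup.eq.1 (Quotient.out_eq' ((⟨h, hh⟩ : H) : H ⧸ K.subgroupOf H))
    exact h1
  · intro q q' h
    rw [← Quotient.out_eq' q, ← Quotient.out_eq' q']
    exact QuotientGroup.eq.2 h

theorem Reps.card {K H : Subgroup 𝔾} {ι : Type} [Fintype ι] {r : ι → 𝔾} (hr : Reps K H r) :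
    Fintype.card ι = K.relIndex H := by
  classical
  have hb : Function.Bijective (fun i => ((⟨r i, hr.mem i⟩ : H) : H ⧸ K.subgroupOf H)) := by
    constructor
    · intro i j hij
      have h1 : ((⟨r i, hr.mem i⟩ : H) : H ⧸ K.subgroupOf H) = ((⟨r j, hr.mem j⟩ : H) : H ⧸ K.subgroupOf H) := hij
      have h2 := QuotientGroup.eq.1 h1
      exact hr.inj i j h2
    · intro q
      obtain ⟨h, rfl⟩ := QuotientGroup.mk_surjective q
      obtain ⟨i, hi⟩ := hr.ex h h.2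
      exact ⟨i, QuotientGroup.eq.2 hi⟩
  rw [← Nat.card_eq_fintype_card, Nat.card_congr (Equiv.ofBijective _ hb)]
  rfl

theorem Reps.nx_bij {K H : Subgroup 𝔾} {ι : Type} [Fintype ι] {r : ι → 𝔾} (hr : Reps K H r)
    {h : 𝔾} (nx : ι → ι) (hnx : ∀ i, (r (nx i))⁻¹ * h * r i ∈ K) : Function.Bijective nx := by
  rw [← Finite.injective_iff_bijective]
  intro i j hij
  have h1 := K.mul_mem (K.inv_mem (hnx i)) (hnx j)
  rw [hij] at h1
  apply hr.inj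
  have h2 : ((r (nx j))⁻¹ * h * r i)⁻¹ * ((r (nx j))⁻¹ * h * r j) = (r i)⁻¹ * r j := by group
  rwa [h2] at h1

theorem Reps.exists_nx {K H : Subgroup 𝔾} {ι : Type} {r : ι → 𝔾} (hr : Reps K H r)
    {h : 𝔾} (hh : h ∈ H) : ∃ nx : ι → ι, ∀ i, (r (nx i))⁻¹ * h * r i ∈ K := by
  choose f hf using hr.ex
  exact ⟨fun i => f (h * r i) (H.mul_mem hh (hr.mem i)), fun i => by
    have := hf (h * r i) (H.mul_mem hh (hr.mem i))
    rwa [← mul_assoc] at this⟩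

/-- **The transfer in terms of representatives.** -/
theorem tr_eq {K H : Subgroup 𝔾} (hKH : K ≤ H) (hf : K.relIndex H ≠ 0) {A : Type}
    [CommGroup A] (ψ : K →* A) {ι : Type} [Fintype ι] {r : ι → 𝔾} (hr : Reps K H r) {h : 𝔾}
    (hh : h ∈ H) (nx : ι → ι) (hnx : ∀ i, (r (nx i))⁻¹ * h * r i ∈ K) :
    tr hKH hf ψ ⟨h, hh⟩ = ∏ i, ψ ⟨(r (nx i))⁻¹ * h * r i, hnx i⟩ := by
  classical
  have : (K.subgroupOf H).FiniteIndex := ⟨hf⟩
  have hb : Function.Bijective (fun i => ((⟨r i, hr.mem i⟩ : H) : H ⧸ K.subgroupOf H)) := by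
    constructor
    · intro i j hij
      have h1 : ((⟨r i, hr.mem i⟩ : H) : H ⧸ K.subgroupOf H) = ((⟨r j, hr.mem j⟩ : H) : H ⧸ K.subgroupOf H) := hij
      have h2 := QuotientGroup.eq.1 h1
      exact hr.inj i j h2
    · intro q
      obtain ⟨h, rfl⟩ := QuotientGroup.mk_surjective q
      obtain ⟨i, hi⟩ := hr.ex h h.2
      exact ⟨i, QuotientGroup.eq.2 hi⟩
  obtain ⟨e, he⟩ : ∃ e : ι ≃ H ⧸ K.subgroupOf H, ∀ i, e i = ((⟨r i, hr.mem i⟩ : H) : H ⧸ K.subgroupOf H) :=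
    ⟨Equiv.ofBijective _ hb, fun i => rfl⟩
  let s : H ⧸ K.subgroupOf H → H := fun q => ⟨r (e.symm q), hr.mem _⟩
  have hs : ∀ q, ((s q : H) : H ⧸ K.subgroupOf H) = q := by
    intro q
    rw [← he, e.apply_symm_apply]
  let T : (K.subgroupOf H).LeftTransversal := ⟨Set.range s, isComplement_range_left hs⟩
  have hT : ∀ q, ((T.2.leftQuotientEquiv q : H)) = s q := fun q =>
    IsComplement.leftQuotientEquiv_apply hs q
  have hT2 : ∀ q, ((((⟨h, hh⟩ : H) • T).2.leftQuotientEquiv q : H)) =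
      ⟨h, hh⟩ * s ((⟨h, hh⟩ : H)⁻¹ • q) := by
    intro q
    rw [smul_apply_eq_smul_apply_inv_smul, hT]
    rfl
  unfold tr
  rw [MonoidHom.transfer_def _ T]
  unfold leftTransversals.diff
  let _ := (K.subgroupOf H).fintypeQuotientOfFiniteIndex
  symm
  refine Fintype.prod_equiv (e.trans (MulAction.toPerm (⟨h, hh⟩ : H))) _ _ fun i => ?_
  show _ = ψ (subgroupOfEquivOfLe hKH ⟨_, _⟩)
  congr 1
  apply Subtype.ext
  show (r (nx i))⁻¹ * h * r i = ((T.2.leftQuotientEquiv ((⟨h, hh⟩ : H) • e i) : H) : 𝔾)⁻¹ *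
    ((((⟨h, hh⟩ : H) • T).2.leftQuotientEquiv ((⟨h, hh⟩ : H) • e i) : H) : 𝔾)
  rw [hT, hT2, inv_smul_smul]
  have h1 : (⟨h, hh⟩ : H) • e i = e (nx i) := by
    rw [he, he]
    refine QuotientGroup.eq.2 ?_
    show (h * r i)⁻¹ * r (nx i) ∈ K
    have h2 : (h * r i)⁻¹ * r (nx i) = ((r (nx i))⁻¹ * h * r i)⁻¹ := by group
    rw [h2]
    exact K.inv_mem (hnx i)
  have h2 : ((s (e i) : H) : 𝔾) = r i := by
    show r (e.symm (e i)) = r i
    rw [e.symm_apply_apply]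
  have h3 : ((s (e (nx i)) : H) : 𝔾) = r (nx i) := by
    show r (e.symm (e (nx i))) = r (nx i)
    rw [e.symm_apply_apply]
  rw [h1, h3]
  show _ = (r (nx i))⁻¹ * (h * ((s (e i) : H) : 𝔾))
  rw [h2, mul_assoc]

/-- the value of the transfer at `h` lies in a subgroup which contains the values of `ψ` at the
elements of `K` conjugate in `H` to powers of `h` -/
theorem tr_mem {K H : Subgroup 𝔾} (hKH : K ≤ H) (hf : K.relIndex H ≠ 0) {A : Type}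
    [CommGroup A] (ψ : K →* A) {h : 𝔾} (hh : h ∈ H) (S : Subgroup A)
    (hS : ∀ g ∈ H, ∀ k : ℕ, ∀ hk : g⁻¹ * h ^ k * g ∈ K, ψ ⟨_, hk⟩ ∈ S) :
    tr hKH hf ψ ⟨h, hh⟩ ∈ S := by
  classical
  have : (K.subgroupOf H).FiniteIndex := ⟨hf⟩
  unfold tr
  have hfin : Finite (Quotient (MulAction.orbitRel (zpowers (⟨h, hh⟩ : H)) (H ⧸ K.subgroupOf H))) :=
    inferInstance
  have hft := Fintype.ofFinite (Quotient (MulAction.orbitRel (zpowers (⟨h, hh⟩ : H)) (H ⧸ K.subgroupOf H)))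
  rw [MonoidHom.transfer_eq_prod_quotient_orbitRel_zpowers_quot]
  refine S.prod_mem fun q _ => ?_
  exact hS _ (q.out.out : H).2 _ _

/-- the transfer modulo a homomorphism which extends to `H` -/
theorem tr_map {K H : Subgroup 𝔾} (hKH : K ≤ H) (hf : K.relIndex H ≠ 0) {A B : Type}
    [CommGroup A] [CommGroup B] (ψ : K →* A) (f : A →* B) (π : H →* B)
    (hfπ : ∀ k : K, f (ψ k) = π ⟨k, hKH k.2⟩) {h : 𝔾} (hh : h ∈ H) :
    f (tr hKH hf ψ ⟨h, hh⟩) = π ⟨h, hh⟩ ^ K.relIndex H := by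
  classical
  obtain ⟨ι, _, r, hr⟩ := exists_reps hf
  obtain ⟨nx, hnx⟩ := hr.exists_nx hh
  rw [tr_eq hKH hf ψ hr hh nx hnx, map_prod, ← hr.card]
  have h1 : ∀ i, f (ψ ⟨(r (nx i))⁻¹ * h * r i, hnx i⟩) =
      (π ⟨r (nx i), hr.mem _⟩)⁻¹ * π ⟨h, hh⟩ * π ⟨r i, hr.mem _⟩ := by
    intro i
    rw [hfπ, ← map_inv, ← map_mul, ← map_mul]
    rfl
  simp_rw [h1]
  rw [Finset.prod_mul_distrib, Finset.prod_mul_distrib, Finset.prod_const, Finset.card_univ,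
    Finset.prod_inv_distrib]
  have h2 : ∏ i, π ⟨r (nx i), hr.mem _⟩ = ∏ i, π ⟨r i, hr.mem _⟩ :=
    (hr.nx_bij nx hnx).prod_comp (fun i => π ⟨r i, hr.mem i⟩)
  rw [h2, mul_comm (_)⁻¹, mul_assoc, inv_mul_cancel, mul_one]

/-- equivariance of the transfer -/
theorem tr_conj {K H : Subgroup 𝔾} (hKH : K ≤ H) (hf : K.relIndex H ≠ 0) {A : Type}
    [CommGroup A] (ψ : K →* A) {g : 𝔾} (hgK : ∀ x ∈ K, g * x * g⁻¹ ∈ K)
    (hgK' : ∀ x ∈ K, g⁻¹ * x * g ∈ K)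
    (hgH : ∀ x ∈ H, g * x * g⁻¹ ∈ H) (hgH' : ∀ x ∈ H, g⁻¹ * x * g ∈ H) (a : A →* A)
    (ha : ∀ x : K, a (ψ x) = ψ ⟨_, hgK x x.2⟩) {h : 𝔾} (hh : h ∈ H) :
    a (tr hKH hf ψ ⟨h, hh⟩) = tr hKH hf ψ ⟨g * h * g⁻¹, hgH h hh⟩ := by
  classical
  obtain ⟨ι, _, r, hr⟩ := exists_reps hf
  obtain ⟨nx, hnx⟩ := hr.exists_nx hh
  have hr' : Reps K H (fun i => g * r i * g⁻¹) := by
    refine ⟨fun i => hgH _ (hr.mem i), fun x hx => ?_, fun i j hij => ?_⟩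
    · obtain ⟨i, hi⟩ := hr.ex _ (hgH' x hx)
      refine ⟨i, ?_⟩
      have h1 := hgK _ hi
      have h2 : (g * r i * g⁻¹)⁻¹ * x = g * ((r i)⁻¹ * (g⁻¹ * x * g)) * g⁻¹ := by group
      rw [h2]
      exact h1
    · apply hr.inj
      have h1 := hgK' _ hij
      have h2 : g⁻¹ * ((g * r i * g⁻¹)⁻¹ * (g * r j * g⁻¹)) * g = (r i)⁻¹ * r j := by group
      rwa [h2] at h1
  have hnx' : ∀ i, (g * r (nx i) * g⁻¹)⁻¹ * (g * h * g⁻¹) * (g * r i * g⁻¹) ∈ K := by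
    intro i
    have h1 := hgK _ (hnx i)
    have h2 : (g * r (nx i) * g⁻¹)⁻¹ * (g * h * g⁻¹) * (g * r i * g⁻¹) =
      g * ((r (nx i))⁻¹ * h * r i) * g⁻¹ := by group
    rw [h2]
    exact h1
  rw [tr_eq hKH hf ψ hr hh nx hnx, tr_eq hKH hf ψ hr' (hgH h hh) nx hnx', map_prod]
  refine Finset.prod_congr rfl fun i _ => ?_
  rw [ha]
  congr 1
  apply Subtype.ext
  show g * ((r (nx i))⁻¹ * h * r i) * g⁻¹ = _
  group

end Pool.Agent.K4H24.IW
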